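import Pool.Agent.Lib.Helper71.Integ.Abel

/-!
# Every finite abelian group is a second derived group
-/

set_option autoImplicit false

namespace Pool.Helper71.Integ

open scoped commutatorElement

/-- The Heisenberg group of dimension five over a commutative ring. -/
@[ext] structure Hei5 (R : Type) [CommRing R] where
  /-- coordinate -/
  a : R
  /-- coordinate -/
  b : R
  /-- coordinate -/
  c : R
  /-- coordinate -/
  d : R
  /-- central coordinate -/
  z : R

namespace Hei5

variable {R : Type} [CommRing R]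

instance : Mul (Hei5 R) := ⟨fun g h => ⟨g.a + h.a, g.b + h.b, g.c + h.c, g.d + h.d,
  g.z + h.z + (g.a * h.c + g.b * h.d)⟩⟩
instance : One (Hei5 R) := ⟨⟨0, 0, 0, 0, 0⟩⟩
instance : Inv (Hei5 R) := ⟨fun g => ⟨-g.a, -g.b, -g.c, -g.d, -g.z + (g.a * g.c + g.b * g.d)⟩⟩

@[simp] theorem mul_a (g h : Hei5 R) : (g * h).a = g.a + h.a := rfl
@[simp] theorem mul_b (g h : Hei5 R) : (g * h).b = g.b + h.b := rfl
@[simp] theorem mul_c (g h : Hei5 R) : (g * h).c = g.c + h.c := rfl
@[simp] theorem mul_d (g h : Hei5 R) : (g * h).d = g.d + h.d := rfl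
@[simp] theorem mul_z (g h : Hei5 R) :
    (g * h).z = g.z + h.z + (g.a * h.c + g.b * h.d) := rfl
@[simp] theorem one_a : (1 : Hei5 R).a = 0 := rfl
@[simp] theorem one_b : (1 : Hei5 R).b = 0 := rfl
@[simp] theorem one_c : (1 : Hei5 R).c = 0 := rfl
@[simp] theorem one_d : (1 : Hei5 R).d = 0 := rfl
@[simp] theorem one_z : (1 : Hei5 R).z = 0 := rfl
@[simp] theorem inv_a (g : Hei5 R) : (g⁻¹).a = -g.a := rfl
@[simp] theorem inv_b (g : Hei5 R) : (g⁻¹).b = -g.b := rfl
@[simp] theorem inv_c (g : Hei5 R) : (g⁻¹).c = -g.c := rfl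
@[simp] theorem inv_d (g : Hei5 R) : (g⁻¹).d = -g.d := rfl
@[simp] theorem inv_z (g : Hei5 R) : (g⁻¹).z = -g.z + (g.a * g.c + g.b * g.d) := rfl

instance : Group (Hei5 R) :=
  Group.ofLeftAxioms
    (fun g h k => by ext <;> simp <;> ring)
    (fun g => by ext <;> simp)
    (fun g => by ext <;> simp <;> ring)

instance [Finite R] : Finite (Hei5 R) := by
  apply Finite.of_injective (fun g : Hei5 R => (g.a, g.b, g.c, g.d, g.z))
  intro g h hgh
  simp only [Prod.mk.injEq] at hgh
  ext
  · exact hgh.1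
  · exact hgh.2.1
  · exact hgh.2.2.1
  · exact hgh.2.2.2.1
  · exact hgh.2.2.2.2

/-- The embedding of the additive group of the ring as the centre. -/
def cenHom (R : Type) [CommRing R] : Multiplicative R →* Hei5 R where
  toFun r := ⟨0, 0, 0, 0, r.toAdd⟩
  map_one' := rfl
  map_mul' r s := by ext <;> simp

theorem cenHom_injective : Function.Injective (cenHom R) := by
  intro r s h
  have : (cenHom R r).z = (cenHom R s).z := by rw [h]
  exact this

theorem comm_eq (g h : Hei5 R) : ⁅g, h⁆ =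
    ⟨0, 0, 0, 0, g.a * h.c + g.b * h.d - h.a * g.c - h.b * g.d⟩ := by
  ext
  · simp [commutatorElement_def]
  · simp [commutatorElement_def]
  · simp [commutatorElement_def]
  · simp [commutatorElement_def]
  · simp [commutatorElement_def]; ring

theorem range_cenHom : (cenHom R).range = commutator (Hei5 R) := by
  apply le_antisymm
  · rintro _ ⟨r, rfl⟩
    have : cenHom R r = ⁅(⟨r.toAdd, 0, 0, 0, 0⟩ : Hei5 R), (⟨0, 0, 1, 0, 0⟩ : Hei5 R)⁆ := by
      rw [comm_eq]
      ext <;> simp [cenHom]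
    rw [this, commutator_def]
    exact Subgroup.commutator_mem_commutator (Subgroup.mem_top _) (Subgroup.mem_top _)
  · rw [commutator_def, Subgroup.commutator_le]
    intro g _ h _
    rw [comm_eq]
    exact ⟨Multiplicative.ofAdd (g.a * h.c + g.b * h.d - h.a * g.c - h.b * g.d), rfl⟩

/-- The automorphism. -/
def phi (R : Type) [CommRing R] : MulAut (Hei5 R) where
  toFun g := ⟨g.b, g.a + g.b, -g.c + g.d, g.c, g.z⟩
  invFun g := ⟨-g.a + g.b, g.a, g.d, g.c + g.d, g.z⟩
  left_inv g := by ext <;> simp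
  right_inv g := by ext <;> simp
  map_mul' g h := by ext <;> simp <;> ring

theorem phi_apply (g : Hei5 R) : phi R g = ⟨g.b, g.a + g.b, -g.c + g.d, g.c, g.z⟩ := rfl

/-- The extension of `Hei5 R` by the automorphism. -/
abbrev Ext (R : Type) [CommRing R] : Type :=
  Hei5 R ⋊[(zpowersHom (MulAut (Hei5 R)) (phi R))] Multiplicative ℤ

theorem comm_inr_inl (g : Hei5 R) :
    ⁅(SemidirectProduct.inr (Multiplicative.ofAdd (1 : ℤ)) : Ext R),
      (SemidirectProduct.inl g : Ext R)⁆ =
      (SemidirectProduct.inl (phi R g * g⁻¹) : Ext R) := by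
  have h : (zpowersHom (MulAut (Hei5 R)) (phi R)) (Multiplicative.ofAdd (1 : ℤ)) g =
      phi R g := by
    simp
  rw [commutatorElement_def, map_mul, map_inv, ← h, SemidirectProduct.inl_aut, map_inv]

theorem inl_mem (g : Hei5 R) :
    (SemidirectProduct.inl g : Ext R) ∈ commutator (Ext R) := by
  have h0 : ∀ h : Hei5 R, (SemidirectProduct.inl (phi R h * h⁻¹) : Ext R) ∈
      commutator (Ext R) := by
    intro h
    rw [← comm_inr_inl, commutator_def]
    exact Subgroup.commutator_mem_commutator (Subgroup.mem_top _) (Subgroup.mem_top _)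
  have h1 := h0 ⟨g.b, g.a + g.b, 0, 0, 0⟩
  have h2 := h0 ⟨0, 0, -(g.c + g.d), -(g.c + 2 * g.d), 0⟩
  have h3 : (SemidirectProduct.inl (cenHom R (Multiplicative.ofAdd (g.z))) : Ext R) ∈
      commutator (Ext R) := by
    apply map_mem_commutator
    rw [← range_cenHom]
    exact ⟨_, rfl⟩
  have h4 : ∀ x : R, (SemidirectProduct.inl (cenHom R (Multiplicative.ofAdd x)) : Ext R) ∈
      commutator (Ext R) := by
    intro x
    apply map_mem_commutator
    rw [← range_cenHom]
    exact ⟨_, rfl⟩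
  have e1 : phi R ⟨g.b, g.a + g.b, 0, 0, 0⟩ * (⟨g.b, g.a + g.b, 0, 0, 0⟩ : Hei5 R)⁻¹ =
      ⟨g.a, g.b, 0, 0, 0⟩ := by
    rw [phi_apply]
    ext
    · simp
    · simp; ring
    · simp
    · simp
    · simp
  have e2 : ∃ x : R, phi R ⟨0, 0, -(g.c + g.d), -(g.c + 2 * g.d), 0⟩ *
      (⟨0, 0, -(g.c + g.d), -(g.c + 2 * g.d), 0⟩ : Hei5 R)⁻¹ = ⟨0, 0, g.c, g.d, x⟩ := by
    refine ⟨0, ?_⟩
    rw [phi_apply]
    ext
    · simp
    · simp
    · simp; ring
    · simp; ring
    · simp
  obtain ⟨x, e2⟩ := e2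
  rw [e1] at h1
  rw [e2] at h2
  have e3 : g = ⟨0, 0, g.c, g.d, x⟩ * ⟨g.a, g.b, 0, 0, 0⟩ *
      cenHom R (Multiplicative.ofAdd (g.z - x)) := by
    ext <;> simp [cenHom]
  rw [e3, map_mul, map_mul]
  exact Subgroup.mul_mem _ (Subgroup.mul_mem _ h2 h1) (h4 _)

theorem commutator_ext : commutator (Ext R) =
    (SemidirectProduct.inl : Hei5 R →* Ext R).range := by
  apply le_antisymm
  · intro x hx
    have h1 := hom_comm_eq_one (SemidirectProduct.rightHom : Ext R →* Multiplicative ℤ) hx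
    rw [SemidirectProduct.range_inl_eq_ker_rightHom]
    exact h1
  · rintro _ ⟨g, rfl⟩
    exact inl_mem g

theorem isIntegrable : IsIntegrable (Hei5 R) := by
  refine ⟨Ext R, inferInstance, ?_⟩
  rw [commutator_ext]
  exact ⟨(MonoidHom.ofInjective SemidirectProduct.inl_injective).symm⟩

end Hei5

/-- For every finite abelian group `K` there is a finite integrable group with derived subgroup
isomorphic to `K`. -/
theorem exists_integrable (K : Type) [CommGroup K] [Finite K] :
    ∃ (H : Type) (_ : Group H), Finite H ∧ Nonempty (commutator H ≃* K) ∧ IsIntegrable H := by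
  obtain ⟨ι, _, n, hn, ⟨e⟩⟩ := CommGroup.equiv_prod_multiplicative_zmod_of_finite K
  have hfin : ∀ i, NeZero (n i) := fun i => ⟨by have := hn i; omega⟩
  let R := ∀ i, ZMod (n i)
  have hR : Finite R := Pi.finite
  refine ⟨Hei5 R, inferInstance, inferInstance, ?_, Hei5.isIntegrable⟩
  rw [← Hei5.range_cenHom]
  exact ⟨(MonoidHom.ofInjective Hei5.cenHom_injective).symm.trans
    ((MulEquiv.piMultiplicative _).trans e.symm)⟩

/-- No non-abelian finite group with abelian derived subgroup has property (D). -/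
theorem not_propertyD_of_abelian_commutator (G : Type) [Group G] [Finite G]
    (hna : ∃ a b : G, a * b ≠ b * a) (hab : ∀ a b : commutator G, a * b = b * a) :
    ¬ PropertyD G := by
  let iK : CommGroup (commutator G) := { (inferInstance : Group (commutator G)) with
    mul_comm := hab }
  have hfin : Finite (commutator G) := inferInstance
  have hnt : Nontrivial (commutator G) := by
    obtain ⟨a, b, h⟩ := hna
    refine ⟨⟨⟨⁅a, b⁆, Subgroup.commutator_mem_commutator (Subgroup.mem_top _)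
      (Subgroup.mem_top _)⟩, 1, ?_⟩⟩
    intro h1
    have h2 : ⁅a, b⁆ = 1 := congrArg Subtype.val h1
    rw [commutatorElement_eq_one_iff_mul_comm] at h2
    exact h h2
  intro hD
  obtain ⟨H1, i1, f1, ⟨e1⟩, hH1⟩ := exists_integrable (commutator G)
  obtain ⟨H2, i2, f2, ⟨e2⟩, hH2⟩ := exists_not_integrable (commutator G)
  have h1 := (hD H1 ⟨e1⟩).1 hH1
  exact hH2 ((hD H2 ⟨e2⟩).2 h1)

end Pool.Helper71.Integ
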