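import Pool.Agent.Lib.Helper71.Integ.Two
import Pool.Agent.Lib.Helper71.Integ.Abel2

/-!
# Outer automorphisms and integrability
-/

set_option autoImplicit false

namespace Pool.Helper71.Integ

open scoped commutatorElement

theorem hom_comm_eq_one' {G M : Type*} [Group G] [Group M] (hM : ∀ a b : M, a * b = b * a)
    (f : G →* M) {x : G} (hx : x ∈ commutator G) : f x = 1 := by
  have h1 : commutator M ≤ ⊥ := by
    rw [commutator_def, Subgroup.commutator_le]
    intro a _ b _
    rw [Subgroup.mem_bot, commutatorElement_eq_one_iff_mul_comm]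
    exact hM a b
  exact Subgroup.mem_bot.1 (h1 (map_mem_commutator f hx))

/-- The restriction of automorphisms to the derived subgroup. -/
def resComm (H : Type) [Group H] : MulAut H →* MulAut (commutator H) where
  toFun θ :=
    { toFun := fun x => ⟨θ x, map_mem_commutator θ.toMonoidHom x.2⟩
      invFun := fun x => ⟨θ.symm x, map_mem_commutator θ.symm.toMonoidHom x.2⟩
      left_inv := fun x => Subtype.ext (θ.symm_apply_apply x)
      right_inv := fun x => Subtype.ext (θ.apply_symm_apply x)
      map_mul' := fun x y => Subtype.ext (map_mul θ (x : H) y) }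
  map_one' := rfl
  map_mul' _ _ := rfl

theorem resComm_apply {H : Type} [Group H] (θ : MulAut H) (x : commutator H) :
    ((resComm H θ x : commutator H) : H) = θ x := rfl

instance conjRange_normal (K : Type) [Group K] : (MulAut.conj : K →* MulAut K).range.Normal := by
  refine ⟨?_⟩
  rintro _ ⟨k, rfl⟩ θ
  refine ⟨θ k, ?_⟩
  ext x
  simp [MulAut.conj_apply]

/-- The outer automorphism group. -/
abbrev Out (K : Type) [Group K] : Type := MulAut K ⧸ (MulAut.conj : K →* MulAut K).range

theorem IsIntegrable.exists_hom {H : Type} [Group H] (hH : IsIntegrable H) :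
    ∃ (L : Type) (_ : Group L) (ψ : L →* MulAut H),
      (commutator L).map ψ = (MulAut.conj : H →* MulAut H).range := by
  obtain ⟨L, iL, ⟨e⟩⟩ := hH
  let f : L →* MulAut H :=
    (MulAut.congr e).toMonoidHom.comp (MulAut.conjNormal (H := commutator L))
  have key : ∀ y : commutator L, f (y : L) = MulAut.conj (e y) := by
    intro y
    ext x
    simp only [f, MonoidHom.coe_comp, Function.comp_apply, MulEquiv.toMonoidHom_eq_coe,
      MonoidHom.coe_coe, MulAut.congr_apply, MulAut.conj_apply]
    have h2 : (MulAut.conjNormal (y : L) : MulAut (commutator L))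
        (e.symm x) = y * e.symm x * y⁻¹ := by
      apply Subtype.ext
      simp [MulAut.conjNormal_apply]
    simp [MulEquiv.trans_apply, h2]
  refine ⟨L, iL, f, ?_⟩
  apply le_antisymm
  · rintro _ ⟨y, hy, rfl⟩
    exact ⟨e ⟨y, hy⟩, (key ⟨y, hy⟩).symm⟩
  · rintro _ ⟨h, rfl⟩
    refine ⟨(e.symm h : commutator L), (e.symm h).2, ?_⟩
    rw [key, MulEquiv.apply_symm_apply]

theorem IsIntegrable.exists_subgroup {H M : Type} [Group H] [Group M] (hH : IsIntegrable H)
    (F : MulAut H →* M) :
    ∃ B : Subgroup M, ⁅B, B⁆ = (F.comp (MulAut.conj : H →* MulAut H)).range := by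
  obtain ⟨L, iL, ψ, hψ⟩ := hH.exists_hom
  refine ⟨(F.comp ψ).range, ?_⟩
  rw [MonoidHom.range_eq_map, ← Subgroup.map_commutator, ← commutator_def, ← Subgroup.map_map,
    hψ, MonoidHom.range_eq_map, MonoidHom.range_eq_map, Subgroup.map_map]

section

variable {K : Type} [Group K]

/-- The extension of `K` by a cyclic group of automorphisms. -/
abbrev CycExt (α : MulAut K) : Type :=
  K ⋊[(Subgroup.zpowers α).subtype] (Subgroup.zpowers α)

theorem commutator_cycExt (hK : commutator K = ⊤) (α : MulAut K) :
    commutator (CycExt α) = (SemidirectProduct.inl : K →* CycExt α).range := by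
  apply le_antisymm
  · intro x hx
    have h1 := hom_comm_eq_one' (M := Subgroup.zpowers α) (fun a b => by
      obtain ⟨i, hi⟩ := Subgroup.mem_zpowers_iff.1 a.2
      obtain ⟨j, hj⟩ := Subgroup.mem_zpowers_iff.1 b.2
      apply Subtype.ext
      rw [Subgroup.coe_mul, Subgroup.coe_mul, ← hi, ← hj, ← zpow_add, ← zpow_add, add_comm])
      (SemidirectProduct.rightHom : CycExt α →* Subgroup.zpowers α) hx
    rw [SemidirectProduct.range_inl_eq_ker_rightHom]
    exact h1
  · rintro _ ⟨g, rfl⟩
    exact map_mem_commutator _ (by rw [hK]; exact Subgroup.mem_top g)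

/-- The isomorphism between the derived subgroup and `K`. -/
noncomputable def cycExtEquiv (hK : commutator K = ⊤) (α : MulAut K) :
    commutator (CycExt α) ≃* K :=
  (MulEquiv.subgroupCongr (commutator_cycExt hK α)).trans
    (MonoidHom.ofInjective SemidirectProduct.inl_injective).symm

theorem cycExtEquiv_spec (hK : commutator K = ⊤) (α : MulAut K) (x : commutator (CycExt α)) :
    (SemidirectProduct.inl (cycExtEquiv hK α x) : CycExt α) = x := by
  unfold cycExtEquiv
  simp only [MulEquiv.trans_apply]
  exact MonoidHom.apply_ofInjective_symm SemidirectProduct.inl_injective _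

theorem cycExtEquiv_eq (hK : commutator K = ⊤) (α : MulAut K) (x : commutator (CycExt α))
    (k : K) (h : (x : CycExt α) = SemidirectProduct.inl k) : cycExtEquiv hK α x = k := by
  apply SemidirectProduct.inl_injective (φ := (Subgroup.zpowers α).subtype)
  rw [cycExtEquiv_spec, h]

/-- If all finite groups with derived subgroup `K` are integrable then every cyclic subgroup of
`Out K` is the derived subgroup of a subgroup. -/
theorem out_condition [Finite K] (hK : commutator K = ⊤)
    (hII : ∀ (H : Type) [Group H] [Finite H], Nonempty (commutator H ≃* K) → IsIntegrable H)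
    (x : Out K) : ∃ B : Subgroup (Out K), ⁅B, B⁆ = Subgroup.zpowers x := by
  obtain ⟨α, rfl⟩ := QuotientGroup.mk_surjective x
  have hf1 : Finite (MulAut K) :=
    Finite.of_injective (fun f : MulAut K => (f : K → K)) DFunLike.coe_injective
  have hf2 : Finite (CycExt α) :=
    Finite.of_equiv _ (SemidirectProduct.equivProd (φ := (Subgroup.zpowers α).subtype)).symm
  have hI := hII (CycExt α) ⟨cycExtEquiv hK α⟩
  let F : MulAut (CycExt α) →* Out K :=
    (QuotientGroup.mk' _).comp ((MulAut.congr (cycExtEquiv hK α)).toMonoidHom.comp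
      (resComm (CycExt α)))
  obtain ⟨B, hB⟩ := hI.exists_subgroup F
  refine ⟨B, ?_⟩
  have key : ∀ h : CycExt α, (MulAut.congr (cycExtEquiv hK α)).toMonoidHom
      (resComm (CycExt α) (MulAut.conj h)) = MulAut.conj h.left * (h.right : MulAut K) := by
    intro h
    ext k
    have h1 : (MulAut.congr (cycExtEquiv hK α)).toMonoidHom
        (resComm (CycExt α) (MulAut.conj h)) k =
        cycExtEquiv hK α (resComm (CycExt α) (MulAut.conj h)
          ((cycExtEquiv hK α).symm k)) := rfl
    rw [h1]
    apply cycExtEquiv_eq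
    rw [resComm_apply, MulAut.conj_apply]
    have h2 : (((cycExtEquiv hK α).symm k : commutator (CycExt α)) : CycExt α) =
        SemidirectProduct.inl k := by
      rw [← cycExtEquiv_spec hK α, MulEquiv.apply_symm_apply]
    rw [h2]
    ext
    · simp [MulAut.conj_apply]
    · simp
  rw [hB]
  apply le_antisymm
  · rintro _ ⟨h, rfl⟩
    obtain ⟨j, hj⟩ := Subgroup.mem_zpowers_iff.1 h.right.2
    have : (F.comp MulAut.conj) h = QuotientGroup.mk' _ (MulAut.conj h.left *
      (h.right : MulAut K)) := by
      rw [← key]; rfl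
    rw [this, map_mul]
    have h0 : QuotientGroup.mk' (MulAut.conj : K →* MulAut K).range (MulAut.conj h.left) = 1 := by
      rw [← MonoidHom.mem_ker, QuotientGroup.ker_mk']
      exact ⟨_, rfl⟩
    rw [h0, one_mul, ← hj, map_zpow]
    exact Subgroup.zpow_mem _ (Subgroup.mem_zpowers _) j
  · rw [Subgroup.zpowers_le]
    refine ⟨SemidirectProduct.inr ⟨α, Subgroup.mem_zpowers α⟩, ?_⟩
    have : (F.comp MulAut.conj) (SemidirectProduct.inr ⟨α, Subgroup.mem_zpowers α⟩) =
      QuotientGroup.mk' _ (MulAut.conj (1 : K) * α) := by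
      have h3 := key (SemidirectProduct.inr ⟨α, Subgroup.mem_zpowers α⟩)
      simp only [SemidirectProduct.left_inr, SemidirectProduct.right_inr] at h3
      rw [← h3]; rfl
    rw [this, map_one, one_mul]
    rfl

end

end Pool.Helper71.Integ
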