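import Pool.Agent.Lib.Helper71.Integ.Central2

/-!
# Groups whose derived subgroup is complete
-/

set_option autoImplicit false

namespace Pool.Helper71.Integ

open scoped commutatorElement

/-- A finite group whose derived subgroup is perfect, centreless and has only inner automorphisms
is integrable. -/
theorem isIntegrable_of_complete {K H : Type} [Group K] [Group H] [Finite H]
    (hK : commutator K = ⊤) (hZ : Subgroup.center K = ⊥)
    (hinn : ∀ θ : MulAut K, ∃ k, ∀ x, θ x = k * x * k⁻¹)
    (hHK : Nonempty (commutator H ≃* K)) : IsIntegrable H := by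
  obtain ⟨e⟩ := hHK
  let C : Subgroup H := Subgroup.centralizer (commutator H : Set H)
  have hC : ∀ (c : C) (x : commutator H), (x : H) * c = c * x := fun c x =>
    Subgroup.mem_centralizer_iff.1 c.2 x x.2
  have hCN : ∀ x : H, x ∈ commutator H → x ∈ C → x = 1 := by
    intro x hx hxC
    have h1 : e ⟨x, hx⟩ ∈ Subgroup.center K := by
      rw [Subgroup.mem_center_iff]
      intro k
      apply e.symm.injective
      rw [map_mul, map_mul, MulEquiv.symm_apply_apply]
      apply Subtype.ext
      exact hC ⟨x, hxC⟩ (e.symm k)
    rw [hZ, Subgroup.mem_bot] at h1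
    have h2 : (⟨x, hx⟩ : commutator H) = 1 := by
      apply e.injective; rw [h1, map_one]
    exact congrArg Subtype.val h2
  have hCcomm : ∀ c d : C, c * d = d * c := by
    intro c d
    have h1 : ⁅(c : H), (d : H)⁆ = 1 := by
      apply hCN
      · exact Subgroup.commutator_mem_commutator (Subgroup.mem_top _) (Subgroup.mem_top _)
      · rw [commutatorElement_def]
        exact Subgroup.mul_mem _ (Subgroup.mul_mem _ (Subgroup.mul_mem _ c.2 d.2)
          (Subgroup.inv_mem _ c.2)) (Subgroup.inv_mem _ d.2)
    rw [commutatorElement_eq_one_iff_mul_comm] at h1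
    exact Subtype.ext h1
  let iC : CommGroup C := { (inferInstance : Group C) with mul_comm := hCcomm }
  have hCfin : Finite C := inferInstance
  let Φ : K × C →* H :=
    { toFun := fun t => ((e.symm t.1 : commutator H) : H) * t.2
      map_one' := by simp
      map_mul' := by
        rintro ⟨k, c⟩ ⟨k', c'⟩
        simp only [Prod.mk_mul_mk, map_mul, Subgroup.coe_mul]
        have := hC c (e.symm k')
        rw [mul_assoc, mul_assoc, ← mul_assoc ((e.symm k' : commutator H) : H), this]
        simp only [mul_assoc] }
  have hΦi : Function.Injective Φ := by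
    rw [injective_iff_map_eq_one]
    rintro ⟨k, c⟩ h
    have h1 : ((e.symm k : commutator H) : H) * c = 1 := h
    have h2 : ((e.symm k : commutator H) : H) = 1 := by
      apply hCN _ (e.symm k).2
      rw [eq_inv_of_mul_eq_one_left h1]
      exact Subgroup.inv_mem _ c.2
    have h3 : k = 1 := by
      apply e.symm.injective
      rw [map_one]
      exact Subtype.ext h2
    rw [h2, one_mul] at h1
    rw [Prod.mk_eq_one]
    exact ⟨h3, Subtype.ext h1⟩
  have hΦs : Function.Surjective Φ := by
    intro h
    obtain ⟨k₀, hk₀⟩ := hinn (MulAut.congr e (resComm H (MulAut.conj h)))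
    have h1 : ∀ x : commutator H, h * (x : H) * h⁻¹ =
        ((e.symm k₀ : commutator H) : H) * x * ((e.symm k₀ : commutator H) : H)⁻¹ := by
      intro x
      have h2 := hk₀ (e x)
      have h3 : MulAut.congr e (resComm H (MulAut.conj h)) (e x) =
          e (resComm H (MulAut.conj h) (e.symm (e x))) := rfl
      rw [h3, MulEquiv.symm_apply_apply] at h2
      have h4 := congrArg (fun t => ((e.symm t : commutator H) : H)) h2
      simp only [MulEquiv.symm_apply_apply, map_mul, map_inv, Subgroup.coe_mul,
        Subgroup.coe_inv] at h4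
      rw [← h4, resComm_apply, MulAut.conj_apply]
    set y : H := ((e.symm k₀ : commutator H) : H) with hy
    have h5 : y⁻¹ * h ∈ C := by
      rw [Subgroup.mem_centralizer_iff]
      intro x hx
      have h6 := h1 ⟨x, hx⟩
      have h7 : h * x = y * x * y⁻¹ * h := by
        rw [← h6]; group
      calc x * (y⁻¹ * h) = y⁻¹ * (y * x * y⁻¹ * h) := by group
        _ = y⁻¹ * (h * x) := by rw [h7]
        _ = y⁻¹ * h * x := by group
    refine ⟨(k₀, ⟨y⁻¹ * h, h5⟩), ?_⟩
    change y * (y⁻¹ * h) = h
    group
  obtain ⟨P, iP, -, ⟨f⟩, -⟩ := exists_integrable C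
  obtain ⟨g⟩ := commutator_prod_equiv (A := K) (B := P) (A' := K) (B' := C)
    ⟨(MulEquiv.subgroupCongr hK).trans Subgroup.topEquiv⟩ ⟨f⟩
  exact ⟨K × P, inferInstance, ⟨g.trans (MulEquiv.ofBijective Φ ⟨hΦi, hΦs⟩)⟩⟩

/-- Finite groups `G` with perfect derived subgroup: if `G'` is complete then `G` has (D). -/
theorem propertyD_of_complete {G : Type} [Group G] [Finite G]
    (hG : commutator (commutator G) = ⊤) (hZ : Subgroup.center (commutator G) = ⊥)
    (hinn : ∀ θ : MulAut (commutator G), ∃ k, ∀ x, θ x = k * x * k⁻¹) : PropertyD G := by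
  intro H _ _ hH
  have h1 : IsIntegrable H := isIntegrable_of_complete hG hZ hinn hH
  have h2 : IsIntegrable G := isIntegrable_of_complete hG hZ hinn ⟨MulEquiv.refl _⟩
  exact ⟨fun _ => h2, fun _ => h1⟩

/-- If `G` has (D) and perfect derived subgroup then all groups with this derived subgroup are
integrable. -/
theorem all_integrable {G : Type} [Group G] [Finite G]
    (hG : commutator (commutator G) = ⊤) (hD : PropertyD G)
    (H : Type) [Group H] [Finite H] (hH : Nonempty (commutator H ≃* commutator G)) :
    IsIntegrable H := by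
  have e : commutator (commutator G) ≃* commutator G :=
    (MulEquiv.subgroupCongr hG).trans Subgroup.topEquiv
  have h1 : IsIntegrable (commutator G) := ⟨commutator G, inferInstance, ⟨e⟩⟩
  have h2 : IsIntegrable G := (hD (commutator G) ⟨e⟩).1 h1
  exact (hD H hH).2 h2

/-- If `G` has (D) and perfect derived subgroup `K` then `Out K` is perfect of odd order. -/
theorem out_perfect_odd {G : Type} [Group G] [Finite G]
    (hG : commutator (commutator G) = ⊤) (hD : PropertyD G) :
    commutator (Out (commutator G)) = ⊤ ∧ Odd (Nat.card (Out (commutator G))) := by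
  have h1 := out_condition hG (fun H _ _ hH => all_integrable hG hD H hH)
  have hf1 : Finite (MulAut (commutator G)) :=
    Finite.of_injective (fun f : MulAut (commutator G) => (f : commutator G → commutator G))
      DFunLike.coe_injective
  exact ⟨perfect_of_forall h1, odd_of_forall h1⟩

theorem center_eq_bot_of_propertyD {G : Type} [Group G] [Finite G]
    (hG : commutator (commutator G) = ⊤) (hD : PropertyD G)
    (hinn : ∀ θ : MulAut (commutator G), ∃ k, ∀ x, θ x = k * x * k⁻¹) :
    Subgroup.center (commutator G) = ⊥ := by
  by_contra hZ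
  obtain ⟨H, iH, hf, hH, hn⟩ := exists_not_integrable_of_center hG hinn hZ
  exact hn (all_integrable hG hD H hH)

/-- Finite groups with perfect derived subgroup `K`, where `Out K` is solvable or of even order:
the group has (D) if and only if `K` is complete. -/
theorem propertyD_iff_of_perfect {G : Type} [Group G] [Finite G]
    (hG : commutator (commutator G) = ⊤)
    (hFT : Group.IsSolvable (Out (commutator G)) ∨ Even (Nat.card (Out (commutator G)))) :
    PropertyD G ↔ Subgroup.center (commutator G) = ⊥ ∧
      ∀ θ : MulAut (commutator G), ∃ k, ∀ x, θ x = k * x * k⁻¹ := by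
  constructor
  · intro hD
    obtain ⟨h1, h2⟩ := out_perfect_odd hG hD
    have hinn : ∀ θ : MulAut (commutator G), ∃ k, ∀ x, θ x = k * x * k⁻¹ := by
      rcases hFT with h | h
      · have hsub : Subsingleton (Out (commutator G)) := by
          by_contra hcon
          rw [not_subsingleton_iff_nontrivial] at hcon
          exact (Group.IsSolvable.commutator_lt_top_of_nontrivial (Out (commutator G))).ne h1
        intro θ
        have h3 : (QuotientGroup.mk θ : Out (commutator G)) = 1 := Subsingleton.elim _ _
        rw [QuotientGroup.eq_one_iff] at h3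
        obtain ⟨k, hk⟩ := h3
        exact ⟨k, fun x => by rw [← hk, MulAut.conj_apply]⟩
      · exact absurd h2 (Nat.not_odd_iff_even.2 h)
    exact ⟨center_eq_bot_of_propertyD hG hD hinn, hinn⟩
  · rintro ⟨h1, h2⟩
    exact propertyD_of_complete hG h1 h2

end Pool.Helper71.Integ
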