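import Pool.Agent.Lib.Helper71.Integ.Dih

/-!
# Groups with abelian derived subgroup
-/

set_option autoImplicit false

namespace Pool.Helper71.Integ

open scoped commutatorElement
open DihedralGroup

/-! ### The derived subgroup of the dihedral group -/

/-- The homomorphism from `ZMod n` to the even rotations. -/
def dihHom (n : ℕ) : Multiplicative (ZMod n) →* DihedralGroup (2 * n) where
  toFun a := r (dil 2 n a.toAdd)
  map_one' := by simp
  map_mul' a b := by rw [r_mul_r, toAdd_mul, map_add]

theorem dihHom_injective (n : ℕ) : Function.Injective (dihHom n) := by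
  intro a b h
  have h1 := DihedralGroup.r.inj h
  exact Multiplicative.toAdd.injective (dil_injective 2 n (by norm_num) h1)

theorem r_double_mem (n : ℕ) (i : ZMod (2 * n)) : r (2 * i) ∈ (dihHom n).range := by
  obtain ⟨b, hb⟩ := dil_surj 2 n i
  refine ⟨Multiplicative.ofAdd b, ?_⟩
  change r (dil 2 n b) = r (2 * i)
  rw [hb]; push_cast; rfl

theorem commutator_dihedral (n : ℕ) :
    commutator (DihedralGroup (2 * n)) = (dihHom n).range := by
  apply le_antisymm
  · rw [commutator_def, Subgroup.commutator_le]
    rintro g - h -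
    rw [commutatorElement_def]
    rcases g with i | i <;> rcases h with j | j
    · have : r i * r j * (r i)⁻¹ * (r j)⁻¹ = r (2 * (0 : ZMod (2 * n))) := by
        simp only [inv_r, r_mul_r]; congr 1; ring
      rw [this]; exact r_double_mem n _
    · have : r i * sr j * (r i)⁻¹ * (sr j)⁻¹ = r (2 * i) := by
        simp only [inv_r, inv_sr, r_mul_sr, sr_mul_r, sr_mul_sr]; congr 1; ring
      rw [this]; exact r_double_mem n _
    · have : sr i * r j * (sr i)⁻¹ * (r j)⁻¹ = r (2 * (-j)) := by
        simp only [inv_r, inv_sr, r_mul_r, sr_mul_r, sr_mul_sr]; congr 1; ring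
      rw [this]; exact r_double_mem n _
    · have : sr i * sr j * (sr i)⁻¹ * (sr j)⁻¹ = r (2 * (j - i)) := by
        simp only [inv_sr, r_mul_sr, sr_mul_sr]; congr 1; ring
      rw [this]; exact r_double_mem n _
  · rintro _ ⟨a, rfl⟩
    obtain ⟨k, hk⟩ := ZMod.intCast_surjective (Multiplicative.toAdd a)
    have : dihHom n a = (r 2) ^ k := by
      change r (dil 2 n (Multiplicative.toAdd a)) = _
      rw [← hk, dil_intCast, r_zpow]; push_cast; rfl
    rw [this]
    exact Subgroup.zpow_mem _ (r_two_mem _) k

theorem commutator_dihedral_equiv (n : ℕ) :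
    Nonempty (commutator (DihedralGroup (2 * n)) ≃* Multiplicative (ZMod n)) := by
  rw [commutator_dihedral]
  exact ⟨((MonoidHom.ofInjective (dihHom_injective n))).symm⟩

/-! ### The derived subgroup of the Heisenberg type group -/

section

variable {ι : Type} (N : ℕ) (m : ι → ℕ)

/-- The homomorphism onto the derived subgroup of the Heisenberg type group. -/
def heiHom : Multiplicative (∀ i, ZMod (m i)) →*
    Hei (∀ i, ZMod (N * m i)) ((N : ℕ) : ∀ i, ZMod (N * m i)) where
  toFun a := ⟨0, 0, fun i => dil N (m i) (a.toAdd i)⟩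
  map_one' := by
    ext i
    · rfl
    · rfl
    · simp
  map_mul' a b := by
    ext i
    · simp
    · simp
    · simp

theorem heiHom_injective (hN : 0 < N) : Function.Injective (heiHom N m) := by
  intro a b h
  have h1 : (heiHom N m a).z = (heiHom N m b).z := by rw [h]
  apply Multiplicative.toAdd.injective
  funext i
  exact dil_injective N (m i) hN (congrFun h1 i)

theorem range_heiHom : (heiHom N m).range =
    commutator (Hei (∀ i, ZMod (N * m i)) ((N : ℕ) : ∀ i, ZMod (N * m i))) := by
  rw [Hei.commutator_eq]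
  apply le_antisymm
  · rintro _ ⟨a, rfl⟩
    refine ⟨rfl, rfl, ?_⟩
    choose f hf using fun i => ZMod.intCast_surjective (Multiplicative.toAdd a i)
    refine ⟨fun i => (f i : ZMod (N * m i)), ?_⟩
    funext i
    change dil N (m i) (Multiplicative.toAdd a i) = _
    rw [← hf i, dil_intCast]
    simp
  · rintro g ⟨h1, h2, s, h3⟩
    choose b hb using fun i => dil_surj N (m i) (s i)
    refine ⟨Multiplicative.ofAdd b, ?_⟩
    ext i
    · change (0 : ZMod _) = g.x i
      rw [h1]; rfl
    · change (0 : ZMod _) = g.y i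
      rw [h2]; rfl
    · change dil N (m i) (b i) = g.z i
      rw [hb, h3]; simp

theorem commutator_hei_equiv (hN : 0 < N) :
    Nonempty (commutator (Hei (∀ i, ZMod (N * m i)) ((N : ℕ) : ∀ i, ZMod (N * m i))) ≃*
      Multiplicative (∀ i, ZMod (m i))) := by
  rw [← range_heiHom]
  exact ⟨((MonoidHom.ofInjective (heiHom_injective N m hN))).symm⟩

end

/-- The divisibility condition. -/
theorem hei_div {ι : Type} (E : ℕ) (m : ι → ℕ) (s t : ∀ i, ZMod (2 * E * m i))
    (h : 2 * s = ((2 * E : ℕ) : ∀ i, ZMod (2 * E * m i)) * t) :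
    ∃ u : ∀ i, ZMod (2 * E * m i), s = E * u := by
  have h1 : ∀ i, ∃ u : ZMod (2 * E * m i), s i = E * u := by
    intro i
    have h2 : 2 * s i = ((2 * E : ℕ) : ZMod (2 * E * m i)) * t i := by
      have := congrFun h i
      simpa using this
    obtain ⟨a, ha⟩ := ZMod.intCast_surjective (s i)
    obtain ⟨b, hb⟩ := ZMod.intCast_surjective (t i)
    rw [← ha, ← hb] at h2
    have h3 : ((2 * a - 2 * E * b : ℤ) : ZMod (2 * E * m i)) = 0 := by
      push_cast
      push_cast at h2
      linear_combination h2
    rw [ZMod.intCast_zmod_eq_zero_iff_dvd] at h3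
    obtain ⟨k, hk⟩ := h3
    have h4 : a = E * (b + m i * k) := by
      push_cast at hk
      linarith
    refine ⟨((b + m i * k : ℤ) : ZMod (2 * E * m i)), ?_⟩
    rw [← ha, h4]
    push_cast
    rfl
  choose u hu using h1
  exact ⟨u, funext fun i => by simp [hu i]⟩

/-- The derived subgroup of a direct product. -/
theorem commutator_prod_equiv {A B A' B' : Type} [Group A] [Group B] [Group A'] [Group B']
    (hA : Nonempty (commutator A ≃* A')) (hB : Nonempty (commutator B ≃* B')) :
    Nonempty (commutator (A × B) ≃* A' × B') := by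
  obtain ⟨f⟩ := hA
  obtain ⟨g⟩ := hB
  have h : commutator (A × B) = (commutator A).prod (commutator B) := by
    rw [commutator_def, commutator_def, commutator_def, ← Subgroup.commutator_prod_prod,
      Subgroup.top_prod_top]
  exact ⟨(MulEquiv.subgroupCongr h).trans ((Subgroup.prodEquiv _ _).trans (f.prodCongr g))⟩

/-- Splitting off a factor of a product. -/
theorem pi_split {ι : Type} (n : ι → ℕ) (i₀ : ι) :
    Nonempty (Multiplicative (ZMod (n i₀)) ×
      Multiplicative (∀ j : {j // j ≠ i₀}, ZMod (n j)) ≃* (∀ i, Multiplicative (ZMod (n i)))) := by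
  classical
  let e : (∀ i, Multiplicative (ZMod (n i))) ≃ Multiplicative (ZMod (n i₀)) ×
      (∀ j : {j // j ≠ i₀}, Multiplicative (ZMod (n j))) := Equiv.piSplitAt i₀ _
  let e' : (∀ i, Multiplicative (ZMod (n i))) ≃* Multiplicative (ZMod (n i₀)) ×
      (∀ j : {j // j ≠ i₀}, Multiplicative (ZMod (n j))) :=
    { e with map_mul' := fun _ _ => rfl }
  exact ⟨((MulEquiv.refl _).prodCongr (MulEquiv.piMultiplicative _)).trans e'.symm⟩

/-- For every nontrivial finite abelian group `K` there is a finite group which is not integrable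
and has derived subgroup isomorphic to `K`. -/
theorem exists_not_integrable (K : Type) [CommGroup K] [Finite K] [Nontrivial K] :
    ∃ (H : Type) (_ : Group H), Finite H ∧ Nonempty (commutator H ≃* K) ∧ ¬ IsIntegrable H := by
  obtain ⟨ι, _, n, hn, ⟨e⟩⟩ := CommGroup.equiv_prod_multiplicative_zmod_of_finite K
  have hι : Nonempty ι := by
    by_contra hcon
    rw [not_nonempty_iff] at hcon
    obtain ⟨a, b, hab⟩ := exists_pair_ne K
    exact hab (e.injective (Subsingleton.elim _ _))
  obtain ⟨i₀⟩ := hι
  let E := 2 * n i₀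
  let m : {j // j ≠ i₀} → ℕ := fun j => n j
  let R := ∀ j : {j // j ≠ i₀}, ZMod (2 * E * m j)
  let W := Hei R ((2 * E : ℕ) : R)
  have hfin1 : ∀ i, NeZero (n i) := fun i => ⟨by have := hn i; omega⟩
  have hfin2 : ∀ j : {j // j ≠ i₀}, NeZero (2 * E * m j) := fun j => ⟨by
    have h1 := hn i₀; have h2 := hn j
    have : 0 < 2 * (2 * n i₀) * n j := by positivity
    exact this.ne'⟩
  have hfinR : Finite R := Pi.finite
  have : NeZero (2 * n i₀) := ⟨by have := hn i₀; omega⟩
  obtain ⟨s⟩ := pi_split n i₀
  obtain ⟨t⟩ := commutator_prod_equiv (commutator_dihedral_equiv (n i₀))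
    (commutator_hei_equiv (2 * E) m (by have := hn i₀; positivity))
  refine ⟨DihedralGroup (2 * n i₀) × W, inferInstance, inferInstance,
    ⟨t.trans (s.trans e.symm)⟩, ?_⟩
  apply not_integrable_prod (hn i₀)
  intro f h hh
  refine Hei.hom_eq_one (E := E) ?_ (fun a b hab => hei_div E m a b hab) f h hh
  intro d
  rcases d with i | i
  · rw [r_pow]
    have : ((E : ℕ) : ZMod (2 * n i₀)) = 0 := ZMod.natCast_self _
    rw [this, mul_zero, r_zero]
  · change (sr i) ^ (2 * n i₀) = 1
    rw [pow_mul, pow_two, sr_mul_self, one_pow]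

end Pool.Helper71.Integ
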