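import Mathlib

/-!
# Integrable groups: definitions and the inner automorphism criterion
-/

set_option autoImplicit false

namespace Pool.Helper71.Integ

/-- A group `G` is integrable if it is isomorphic to the derived subgroup of some group. -/
def IsIntegrable (G : Type) [Group G] : Prop :=
  ∃ (L : Type) (_ : Group L), Nonempty (commutator L ≃* G)

/-- Property (D): among the finite groups `H` whose derived subgroup is isomorphic to the derived
subgroup of `G`, either all are integrable or none is, as `G` is or is not. -/
def PropertyD (G : Type) [Group G] : Prop :=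
  ∀ (H : Type) [Group H] [Finite H], Nonempty (commutator H ≃* commutator G) →
    (IsIntegrable H ↔ IsIntegrable G)

theorem IsIntegrable.of_equiv {G H : Type} [Group G] [Group H] (e : G ≃* H)
    (h : IsIntegrable G) : IsIntegrable H := by
  obtain ⟨L, iL, ⟨f⟩⟩ := h
  exact ⟨L, iL, ⟨f.trans e⟩⟩

/-- A group homomorphism maps the derived subgroup into the derived subgroup. -/
theorem map_mem_commutator {G H : Type*} [Group G] [Group H] (f : G →* H) {x : G}
    (hx : x ∈ commutator G) : f x ∈ commutator H := by
  have h1 : (commutator G).map f ≤ commutator H := by
    rw [commutator_def, Subgroup.map_commutator]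
    exact Subgroup.commutator_mono le_top le_top
  exact h1 (Subgroup.mem_map_of_mem f hx)

/-- A homomorphism to a commutative monoid kills the derived subgroup. -/
theorem hom_comm_eq_one {G M : Type*} [Group G] [CommMonoid M] (f : G →* M) {x : G}
    (hx : x ∈ commutator G) : f x = 1 := by
  have h1 : f.toHomUnits x = 1 := by
    exact (MonoidHom.mem_ker).1 (Abelianization.commutator_subset_ker f.toHomUnits hx)
  have h2 : ((f.toHomUnits x : Mˣ) : M) = f x := MonoidHom.coe_toHomUnits f x
  rw [← h2, h1]; rfl

/-- If `H` is integrable then every inner automorphism of `H` is in the derived subgroup of the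
automorphism group. -/
theorem IsIntegrable.conj_mem {H : Type} [Group H] (hH : IsIntegrable H) (h : H) :
    MulAut.conj h ∈ commutator (MulAut H) := by
  obtain ⟨L, iL, ⟨e⟩⟩ := hH
  let f : L →* MulAut H :=
    (MulAut.congr e).toMonoidHom.comp (MulAut.conjNormal (H := commutator L))
  have key : f ((e.symm h : commutator L) : L) = MulAut.conj h := by
    ext x
    simp only [f, MonoidHom.coe_comp, Function.comp_apply, MulEquiv.toMonoidHom_eq_coe,
      MonoidHom.coe_coe, MulAut.congr_apply, MulAut.conj_apply]
    have h2 : (MulAut.conjNormal ((e.symm h : commutator L) : L) : MulAut (commutator L))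
        (e.symm x) = e.symm h * e.symm x * (e.symm h)⁻¹ := by
      apply Subtype.ext
      simp [MulAut.conjNormal_apply]
    simp [MulEquiv.trans_apply, h2]
  rw [← key]
  exact map_mem_commutator f (e.symm h).2

end Pool.Helper71.Integ
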