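import Pool.Agent.Lib.Helper71.Integ.Perfect

/-!
# Central products: a group with a non-integrable extension
-/

set_option autoImplicit false

namespace Pool.Helper71.Integ

open scoped commutatorElement

section Abstract

variable {K H : Type} [Group K] [Group H] {ι : K →* H} {a b : H} {z w : K} {p : ℕ}

/-- The relation between powers of `b` and `a`. -/
theorem swap_pow (ha : ∀ k, a * ι k = ι k * a) (hb : ∀ k, b * ι k = ι k * b)
    (hba : b * a = ι z * a * b) (l n : ℤ) : b ^ l * a ^ n = ι (z ^ (l * n)) * a ^ n * b ^ l := by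
  have hac : ∀ k, Commute a (ι k) := ha
  have hbc : ∀ k, Commute b (ι k) := hb
  -- conjugation of `a` by `b`
  have h1 : b * a * b⁻¹ = ι z * a := by rw [hba]; group
  have h2 : ∀ n : ℤ, b * a ^ n * b⁻¹ = ι (z ^ n) * a ^ n := by
    intro n
    rw [← conj_zpow, h1, (hac z).symm.mul_zpow, map_zpow]
  have h3 : ∀ m : ℕ, ∀ n : ℤ, b ^ m * a ^ n * (b ^ m)⁻¹ = ι (z ^ (m * n)) * a ^ n := by
    intro m
    induction m with
    | zero => intro n; simp
    | succ m ih =>
      intro n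
      have : b ^ (m + 1) * a ^ n * (b ^ (m + 1))⁻¹ = b ^ m * (b * a ^ n * b⁻¹) * (b ^ m)⁻¹ := by
        rw [pow_succ]; group
      rw [this, h2]
      have h4 : b ^ m * (ι (z ^ n) * a ^ n) * (b ^ m)⁻¹ =
          ι (z ^ n) * (b ^ m * a ^ n * (b ^ m)⁻¹) := by
        rw [← mul_assoc, ((hbc (z ^ n)).pow_left m).eq]; group
      rw [h4, ih, ← mul_assoc, ← map_mul, ← zpow_add]
      congr 3
      push_cast; ring
  rcases Int.eq_nat_or_neg l with ⟨m, rfl | rfl⟩
  · have := h3 m n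
    rw [zpow_natCast, ← this]; group
  · have h5 := h3 m n
    have h6 : a ^ n * (b ^ m)⁻¹ = (b ^ m)⁻¹ * (ι (z ^ (m * n)) * a ^ n) := by
      rw [← h5]; group
    have h7 : (b ^ m)⁻¹ * (ι (z ^ (m * n)) * a ^ n) =
        ι (z ^ (m * n)) * ((b ^ m)⁻¹ * a ^ n) := by
      rw [← mul_assoc, ← mul_assoc, (((hbc (z ^ (m * n))).pow_left m).inv_left).eq]
    rw [h7] at h6
    have h8 : ι (z ^ (-(m : ℤ) * n)) = (ι (z ^ ((m : ℤ) * n)))⁻¹ := by
      rw [← map_inv, ← zpow_neg]; congr 2; ring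
    rw [h8, mul_assoc, zpow_neg, zpow_natCast, h6]
    group

/-- The power formula. -/
theorem pow_formula (ha : ∀ k, a * ι k = ι k * a) (hb : ∀ k, b * ι k = ι k * b)
    (hba : b * a = ι z * a * b) (hz : ∀ k, z * k = k * z)
    {u : K} (n l : ℤ) (m : ℕ) :
    (ι u * a ^ n * b ^ l) ^ m =
      ι (u ^ m * z ^ (n * l * (m.choose 2 : ℕ))) * a ^ (n * m) * b ^ (l * m) := by
  have hac : ∀ k, Commute a (ι k) := ha
  have hbc : ∀ k, Commute b (ι k) := hb
  induction m with
  | zero => simp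
  | succ m ih =>
    rw [pow_succ, ih]
    have h1 := swap_pow ha hb hba (l * m) n
    have e1 : a ^ (n * m) * b ^ (l * m) * (ι u * a ^ n * b ^ l) =
        ι u * (a ^ (n * m) * (b ^ (l * m) * a ^ n) * b ^ l) := by
      have c1 : a ^ (n * m) * b ^ (l * m) * ι u = ι u * (a ^ (n * m) * b ^ (l * m)) :=
        (((hac u).zpow_left _).mul_left ((hbc u).zpow_left _)).eq
      calc a ^ (n * m) * b ^ (l * m) * (ι u * a ^ n * b ^ l)
          = (a ^ (n * m) * b ^ (l * m) * ι u) * a ^ n * b ^ l := by group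
        _ = ι u * (a ^ (n * m) * b ^ (l * m)) * a ^ n * b ^ l := by rw [c1]
        _ = _ := by group
    have e2 : a ^ (n * m) * (ι (z ^ (l * m * n)) * a ^ n * b ^ (l * m)) * b ^ l =
        ι (z ^ (l * m * n)) * (a ^ (n * m) * a ^ n * (b ^ (l * m) * b ^ l)) := by
      have c2 : a ^ (n * m) * ι (z ^ (l * m * n)) = ι (z ^ (l * m * n)) * a ^ (n * m) :=
        ((hac _).zpow_left _).eq
      calc a ^ (n * m) * (ι (z ^ (l * m * n)) * a ^ n * b ^ (l * m)) * b ^ l
          = (a ^ (n * m) * ι (z ^ (l * m * n))) * a ^ n * b ^ (l * m) * b ^ l := by group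
        _ = ι (z ^ (l * m * n)) * a ^ (n * m) * a ^ n * b ^ (l * m) * b ^ l := by rw [c2]
        _ = _ := by group
    have e3 : ι (u ^ m * z ^ (n * l * (m.choose 2 : ℕ))) * a ^ (n * m) * b ^ (l * m) *
        (ι u * a ^ n * b ^ l) = ι (u ^ m * z ^ (n * l * (m.choose 2 : ℕ))) *
        (a ^ (n * m) * b ^ (l * m) * (ι u * a ^ n * b ^ l)) := by group
    rw [e3, e1, h1, e2, ← zpow_add, ← zpow_add, ← mul_assoc, ← mul_assoc, ← map_mul, ← map_mul]
    have e4 : u ^ m * z ^ (n * l * (m.choose 2 : ℕ)) * u * z ^ (l * m * n) =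
        u ^ (m + 1) * z ^ (n * l * ((m + 1).choose 2 : ℕ)) := by
      have c3 : Commute (z ^ (n * l * (m.choose 2 : ℕ))) u := (show Commute z u from hz u).zpow_left _
      rw [mul_assoc (u ^ m), c3.eq, ← mul_assoc, ← pow_succ, mul_assoc, ← zpow_add]
      congr 2
      have : (m + 1).choose 2 = m + m.choose 2 := by
        rw [Nat.choose_succ_succ' m 1, Nat.choose_one_right]
      rw [this]; push_cast; ring
    rw [e4, ← mul_assoc]
    congr 2
    · congr 1; push_cast; ring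
    · push_cast; ring

theorem dvd_of_pow_eq (hp : p.Prime) (hw : ∀ k, w * k = k * w)
    (hwp : ∀ v, (∀ k, v * k = k * v) → v ^ p ≠ w) {i : ℤ} {v : K} (hv : ∀ k, v * k = k * v)
    (h : w ^ i = v ^ p) : (p : ℤ) ∣ i := by
  by_contra hi
  have hcop : IsCoprime (p : ℤ) i :=
    (Nat.prime_iff_prime_int.1 hp).irreducible.coprime_iff_not_dvd.2 hi
  obtain ⟨α, β, hαβ⟩ := hcop
  have hwc : ∀ k, Commute w k := hw
  have hvc : ∀ k, Commute v k := hv
  refine hwp (w ^ α * v ^ β) (fun k => (((hwc k).zpow_left α).mul_left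
    ((hvc k).zpow_left β)).eq) ?_
  have h1 : Commute (w ^ α) (v ^ β) := ((hwc v).zpow_left α).zpow_right β
  rw [h1.mul_pow]
  have h2 : (v ^ β) ^ p = w ^ (β * i) := by
    rw [← zpow_natCast, ← zpow_mul, mul_comm β (p : ℤ), zpow_mul, zpow_natCast, ← h, ← zpow_mul,
      mul_comm i]
  rw [h2, ← zpow_natCast, ← zpow_mul, ← zpow_add, hαβ, zpow_one]

theorem not_integrable_of_data (hp : p.Prime) (hι : Function.Injective ι)
    (hcomm : commutator H = ι.range)
    (hinn : ∀ θ : MulAut K, ∃ k, ∀ x, θ x = k * x * k⁻¹)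
    (ha : ∀ k, a * ι k = ι k * a) (hb : ∀ k, b * ι k = ι k * b)
    (hba : b * a = ι z * a * b) (hz : ∀ k, z * k = k * z) (hw : ∀ k, w * k = k * w)
    (hzp : z ^ p = 1) (hz1 : z ≠ 1)
    (hwp : ∀ v, (∀ k, v * k = k * v) → v ^ p ≠ w)
    (hap : a ^ (p ^ 2) = ι w) (hbp : b ^ p = 1)
    (hgen : ∀ h : H, ∃ (k : K) (n l : ℤ), h = ι k * a ^ n * b ^ l)
    (hrel : ∀ (k : K) (n l : ℤ), ι k * a ^ n * b ^ l = 1 →
      (p : ℤ) ∣ l ∧ ∃ i : ℤ, n = (p : ℤ) ^ 2 * i ∧ k * w ^ i = 1) :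
    ¬ IsIntegrable H := by
  have hp0 : (p : ℤ) ≠ 0 := by exact_mod_cast hp.ne_zero
  have hzc : ∀ k, Commute z k := hz
  have hwc : ∀ k, Commute w k := hw
  have hzpz : ∀ i : ℤ, z ^ ((p : ℤ) * i) = 1 := by
    intro i; rw [zpow_mul, zpow_natCast, hzp, one_zpow]
  have hbpz : ∀ i : ℤ, b ^ ((p : ℤ) * i) = 1 := by
    intro i; rw [zpow_mul, zpow_natCast, hbp, one_zpow]
  have hapz : ∀ i : ℤ, a ^ ((p : ℤ) ^ 2 * i) = ι (w ^ i) := by
    intro i
    rw [zpow_mul, map_zpow, ← hap]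
    norm_cast
  -- restriction of automorphisms
  let e : commutator H ≃* K := (MulEquiv.subgroupCongr hcomm).trans (MonoidHom.ofInjective hι).symm
  have he : ∀ x : commutator H, ι (e x) = x := fun x =>
    MonoidHom.apply_ofInjective_symm hι _
  have hθ : ∀ θ : MulAut H, ∃ k₀ : K, ∀ k, θ (ι k) = ι (k₀ * k * k₀⁻¹) := by
    intro θ
    obtain ⟨k₀, hk₀⟩ := hinn (MulAut.congr e (resComm H θ))
    refine ⟨k₀, fun k => ?_⟩
    rw [← hk₀ k]
    have h1 : MulAut.congr e (resComm H θ) k = e (resComm H θ (e.symm k)) := rfl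
    rw [h1, he, resComm_apply]
    have h2 : ((e.symm k : commutator H) : H) = ι k := by
      rw [← he (e.symm k), MulEquiv.apply_symm_apply]
    rw [h2]
  -- elements commuting with the image of `K`
  have hcen : ∀ (k₁ : K) (n l : ℤ), (∀ k, Commute (ι k₁ * a ^ n * b ^ l) (ι k)) →
      ∀ k, k₁ * k = k * k₁ := by
    intro k₁ n l h k
    apply hι
    rw [map_mul, map_mul]
    have c1 : Commute (a ^ n * b ^ l) (ι k) :=
      ((show Commute a (ι k) from ha k).zpow_left n).mul_left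
        ((show Commute b (ι k) from hb k).zpow_left l)
    have c2 : Commute (ι k₁ * (a ^ n * b ^ l)) (ι k) := by rw [← mul_assoc]; exact h k
    have c3 : Commute (ι k₁ * (a ^ n * b ^ l) * (a ^ n * b ^ l)⁻¹) (ι k) :=
      c2.mul_left c1.inv_left
    rw [mul_inv_cancel_right] at c3
    exact c3.eq
  have hcomθ : ∀ (θ : MulAut H) (c : H), (∀ k, c * ι k = ι k * c) →
      ∀ k, Commute (θ c) (ι k) := by
    intro θ c hc k
    obtain ⟨k₀, hk₀⟩ := hθ θ
    have h1 : ι k = θ (ι (k₀⁻¹ * k * k₀)) := by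
      rw [hk₀]; congr 1; group
    rw [h1]
    exact (show Commute c _ from hc _).map θ
  -- the main computation
  have hmain : ∀ θ : MulAut H, ∃ u : K, (∀ k, u * k = k * u) ∧ θ b = ι u * b := by
    intro θ
    obtain ⟨k₀, hk₀⟩ := hθ θ
    obtain ⟨k₁, n, l, hB⟩ := hgen (θ b)
    obtain ⟨k₂, n₂, l₂, hA⟩ := hgen (θ a)
    have hk₁ : ∀ k, k₁ * k = k * k₁ := by
      apply hcen k₁ n l
      rw [← hB]
      exact hcomθ θ b hb
    have hk₂ : ∀ k, k₂ * k = k * k₂ := by
      apply hcen k₂ n₂ l₂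
      rw [← hA]
      exact hcomθ θ a ha
    -- `n` is divisible by `p ^ 2`
    have h1 : (ι k₁ * a ^ n * b ^ l) ^ p = 1 := by rw [← hB, ← map_pow, hbp, map_one]
    rw [pow_formula ha hb hba hz] at h1
    obtain ⟨-, i, hi1, hi2⟩ := hrel _ _ _ h1
    have hn1 : n = p * i := by
      have : (p : ℤ) * n = p * (p * i) := by linear_combination hi1
      exact mul_left_cancel₀ hp0 this
    have hz0 : z ^ (n * l * (p.choose 2 : ℕ)) = 1 := by
      rw [hn1, show (p : ℤ) * i * l * (p.choose 2 : ℕ) = p * (i * l * (p.choose 2 : ℕ)) by ring,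
        hzpz]
    rw [hz0, mul_one] at hi2
    have hi3 : w ^ i = (k₁⁻¹) ^ p := by
      rw [inv_pow]; exact (inv_eq_of_mul_eq_one_right hi2).symm
    obtain ⟨i', hi'⟩ := dvd_of_pow_eq hp hw hwp
      (fun k => (Commute.inv_left (show Commute k₁ k from hk₁ k)).eq) hi3
    have hn2 : n = (p : ℤ) ^ 2 * i' := by rw [hn1, hi']; ring
    have hB2 : θ b = ι (k₁ * w ^ i') * b ^ l := by
      rw [hB, hn2, hapz, map_mul]
    obtain ⟨u, hu⟩ : ∃ u, u = k₁ * w ^ i' := ⟨_, rfl⟩
    rw [← hu] at hB2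
    have huc : ∀ k, u * k = k * u := fun k => by
      rw [hu]
      exact ((show Commute k₁ k from hk₁ k).mul_left ((hwc k).zpow_left i')).eq
    -- `n₂` is congruent to one modulo `p`
    have h2 : (ι k₂ * a ^ n₂ * b ^ l₂) ^ (p ^ 2) = ι w := by
      rw [← hA, ← map_pow, hap, hk₀]
      congr 1
      rw [← hw k₀]
      group
    have h3 : ι (w⁻¹ * (k₂ ^ (p ^ 2) * z ^ (n₂ * l₂ * ((p ^ 2).choose 2 : ℕ)))) *
        a ^ (n₂ * ((p ^ 2 : ℕ) : ℤ)) * b ^ (l₂ * ((p ^ 2 : ℕ) : ℤ)) = 1 := by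
      rw [pow_formula ha hb hba hz] at h2
      rw [map_mul, mul_assoc, mul_assoc, ← mul_assoc _ (a ^ _), h2, map_inv, inv_mul_cancel]
    obtain ⟨-, i₂, hi4, hi5⟩ := hrel _ _ _ h3
    have hn3 : n₂ = i₂ := by
      have : (p : ℤ) ^ 2 * n₂ = (p : ℤ) ^ 2 * i₂ := by
        push_cast at hi4
        linear_combination hi4
      exact mul_left_cancel₀ (pow_ne_zero 2 hp0) this
    have hz2 : z ^ (n₂ * l₂ * ((p ^ 2).choose 2 : ℕ)) = 1 := by
      have hd : p ∣ (p ^ 2).choose 2 := by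
        apply hp.dvd_choose_pow (by norm_num)
        intro h
        have := hp.two_le
        nlinarith
      obtain ⟨q, hq⟩ := hd
      rw [hq, show n₂ * l₂ * ((p * q : ℕ) : ℤ) = p * (n₂ * l₂ * q) by push_cast; ring, hzpz]
    rw [hz2, mul_one, ← hn3] at hi5
    have h4 : w ^ (n₂ - 1) = ((k₂⁻¹) ^ p) ^ p := by
      have h5 : k₂ ^ (p ^ 2) * w ^ (n₂ - 1) = 1 := by
        have h6 : w⁻¹ * k₂ ^ (p ^ 2) = k₂ ^ (p ^ 2) * w⁻¹ := ((hwc _).inv_left).eq
        rw [h6, mul_assoc] at hi5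
        rw [sub_eq_neg_add, zpow_add, zpow_neg_one]
        exact hi5
      rw [← pow_mul, ← pow_two, inv_pow]
      exact (inv_eq_of_mul_eq_one_right h5).symm
    obtain ⟨j, hj⟩ := dvd_of_pow_eq hp hw hwp (fun k =>
      ((Commute.inv_left (show Commute k₂ k from hk₂ k)).pow_left p).eq) h4
    -- `l` is congruent to one modulo `p`
    have h7 : θ b * θ a = ι z * θ a * θ b := by
      rw [← map_mul, hba, map_mul, map_mul, hk₀]
      congr 3
      rw [← hz k₀]; group
    have h8 : z ^ (l * n₂) = z := by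
      have e1 : θ b * θ a = ι (u * k₂) * (b ^ l * a ^ n₂) * b ^ l₂ := by
        rw [hB2, hA, map_mul ι u k₂]
        have c1 : b ^ l * ι k₂ = ι k₂ * b ^ l :=
          ((show Commute b (ι k₂) from hb k₂).zpow_left l).eq
        calc ι u * b ^ l * (ι k₂ * a ^ n₂ * b ^ l₂)
            = ι u * (b ^ l * ι k₂) * a ^ n₂ * b ^ l₂ := by group
          _ = ι u * (ι k₂ * b ^ l) * a ^ n₂ * b ^ l₂ := by rw [c1]
          _ = ι u * ι k₂ * (b ^ l * a ^ n₂) * b ^ l₂ := by group
      have e2 : ι z * θ a * θ b = ι (u * k₂) * (ι z * a ^ n₂ * b ^ l) * b ^ l₂ := by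
        rw [hB2, hA, map_mul ι u k₂]
        have c1 : a ^ n₂ * b ^ l₂ * ι u = ι u * (a ^ n₂ * b ^ l₂) :=
          (((show Commute a (ι u) from ha u).zpow_left n₂).mul_left
            ((show Commute b (ι u) from hb u).zpow_left l₂)).eq
        have c2 : ι z * ι k₂ * ι u = ι u * ι k₂ * ι z := by
          rw [← map_mul, ← map_mul, ← map_mul, ← map_mul]
          congr 1
          rw [hz k₂, mul_assoc, hz u, ← mul_assoc, hk₂ u]
        have c3 : b ^ l₂ * b ^ l = b ^ l * b ^ l₂ := (Commute.refl b).zpow_zpow l₂ l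
        calc ι z * (ι k₂ * a ^ n₂ * b ^ l₂) * (ι u * b ^ l)
            = ι z * ι k₂ * (a ^ n₂ * b ^ l₂ * ι u) * b ^ l := by group
          _ = ι z * ι k₂ * (ι u * (a ^ n₂ * b ^ l₂)) * b ^ l := by rw [c1]
          _ = (ι z * ι k₂ * ι u) * a ^ n₂ * (b ^ l₂ * b ^ l) := by group
          _ = (ι u * ι k₂ * ι z) * a ^ n₂ * (b ^ l * b ^ l₂) := by rw [c2, c3]
          _ = ι u * ι k₂ * (ι z * a ^ n₂ * b ^ l) * b ^ l₂ := by group
      rw [e1, e2, swap_pow ha hb hba] at h7
      have h9 := mul_left_cancel (mul_right_cancel h7)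
      have h10 := mul_right_cancel (mul_right_cancel h9)
      exact hι h10
    have h11 : (p : ℤ) ∣ l * n₂ - 1 := by
      have h12 : z ^ (l * n₂ - 1) = 1 := by rw [zpow_sub_one, h8, mul_inv_cancel]
      have : Fact p.Prime := ⟨hp⟩
      have h13 : orderOf z = p := orderOf_eq_prime hzp hz1
      rw [← h13]
      exact orderOf_dvd_iff_zpow_eq_one.2 h12
    have h14 : (p : ℤ) ∣ l - 1 := by
      have h15 : l - 1 = (l * n₂ - 1) - l * (n₂ - 1) := by ring
      rw [h15]
      exact dvd_sub h11 (dvd_mul_of_dvd_right ⟨j, hj⟩ l)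
    obtain ⟨q, hq⟩ := h14
    refine ⟨u, huc, ?_⟩
    rw [hB2]
    congr 1
    rw [show l = p * q + 1 by linear_combination hq, zpow_add, hbpz, one_mul, zpow_one]
  -- the character
  choose χ hχ1 hχ2 using hmain
  let X : MulAut H →* Subgroup.center K :=
    { toFun := fun θ => ⟨χ θ, Subgroup.mem_center_iff.2 fun k => (hχ1 θ k).symm⟩
      map_one' := by
        apply Subtype.ext
        apply hι
        have := hχ2 1
        rw [MulAut.one_apply] at this
        have h1 : ι (χ 1) = 1 := mul_eq_right.1 this.symm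
        rw [h1]; simp
      map_mul' := by
        intro θ θ'
        apply Subtype.ext
        apply hι
        obtain ⟨k₀, hk₀⟩ := hθ θ
        have h1 : (θ * θ') b = ι (χ θ' * χ θ) * b := by
          have h0 : k₀ * χ θ' * k₀⁻¹ = χ θ' := by rw [← hχ1 θ' k₀]; group
          rw [MulAut.mul_apply, hχ2 θ', map_mul θ, hk₀, h0, hχ2 θ, ← mul_assoc, ← map_mul]
        rw [hχ2 (θ * θ')] at h1
        have h2 := mul_right_cancel h1
        rw [h2]
        congr 1
        exact hχ1 θ' _ }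
  intro hI
  have h1 := hom_comm_eq_one' (fun x y : Subgroup.center K => by
    apply Subtype.ext
    exact (Subgroup.mem_center_iff.1 x.2 y).symm) X (hI.conj_mem a)
  have h2 : ι (χ (MulAut.conj a)) = 1 := by
    have : χ (MulAut.conj a) = 1 := congrArg Subtype.val h1
    rw [this, map_one]
  have h3 := hχ2 (MulAut.conj a)
  rw [h2, one_mul, MulAut.conj_apply] at h3
  have h4 : a * b = b * a := by
    have := congrArg (fun t => t * a) h3
    simpa using this
  rw [hba] at h4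
  have h5 : ι z = 1 := by
    have : ι z * (a * b) = 1 * (a * b) := by rw [← mul_assoc, one_mul]; exact h4.symm
    exact mul_right_cancel this
  exact hz1 (hι (by rw [h5, map_one]))

end Abstract

end Pool.Helper71.Integ
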