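import Pool.Agent.Lib.Helper71.Integ.Central

/-!
# The concrete central product
-/

set_option autoImplicit false

namespace Pool.Helper71.Integ

open scoped commutatorElement

/-- Triples `(k, n, l)`, standing for `k aⁿ bˡ` with `b a = z a b` and `a`, `b` commuting with
`K`. -/
@[ext] structure CP (K : Type) [Group K] (z : Subgroup.center K) where
  /-- component in `K` -/
  k : K
  /-- exponent of `a` -/
  n : ℤ
  /-- exponent of `b` -/
  l : ℤ

namespace CP

variable {K : Type} [Group K] {z : Subgroup.center K}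

theorem zc (z : Subgroup.center K) (i : ℤ) (k : K) : (z : K) ^ i * k = k * (z : K) ^ i := by
  have h : Commute (z : K) k := (Subgroup.mem_center_iff.1 z.2 k).symm
  exact (h.zpow_left i).eq

instance : Mul (CP K z) := ⟨fun g h => ⟨g.k * h.k * (z : K) ^ (g.l * h.n), g.n + h.n, g.l + h.l⟩⟩
instance : One (CP K z) := ⟨⟨1, 0, 0⟩⟩
instance : Inv (CP K z) := ⟨fun g => ⟨g.k⁻¹ * (z : K) ^ (g.l * g.n), -g.n, -g.l⟩⟩

@[simp] theorem mul_k (g h : CP K z) : (g * h).k = g.k * h.k * (z : K) ^ (g.l * h.n) := rfl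
@[simp] theorem mul_n (g h : CP K z) : (g * h).n = g.n + h.n := rfl
@[simp] theorem mul_l (g h : CP K z) : (g * h).l = g.l + h.l := rfl
@[simp] theorem one_k : (1 : CP K z).k = 1 := rfl
@[simp] theorem one_n : (1 : CP K z).n = 0 := rfl
@[simp] theorem one_l : (1 : CP K z).l = 0 := rfl
@[simp] theorem inv_k (g : CP K z) : (g⁻¹).k = g.k⁻¹ * (z : K) ^ (g.l * g.n) := rfl
@[simp] theorem inv_n (g : CP K z) : (g⁻¹).n = -g.n := rfl
@[simp] theorem inv_l (g : CP K z) : (g⁻¹).l = -g.l := rfl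

instance : Group (CP K z) :=
  Group.ofLeftAxioms
    (fun g h m => by
      ext
      · simp only [mul_k, mul_n, mul_l]
        rw [mul_assoc (g.k * h.k), zc z (g.l * h.n) m.k, mul_assoc _ (m.k * _),
          mul_assoc m.k, ← zpow_add, ← mul_assoc, ← mul_assoc]
        have : g.l * h.n + (g.l + h.l) * m.n = h.l * m.n + g.l * (h.n + m.n) := by ring
        rw [this, zpow_add, ← mul_assoc, mul_assoc g.k h.k m.k]
      · simp [add_assoc]
      · simp [add_assoc])
    (fun g => by ext <;> simp)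
    (fun g => by
      ext
      · simp only [mul_k, inv_k, inv_l, one_k]
        rw [mul_assoc g.k⁻¹, zc z, mul_assoc, mul_assoc, ← zpow_add]
        simp
      · simp
      · simp)

/-- The embedding of `K`. -/
def inK (z : Subgroup.center K) : K →* CP K z where
  toFun k := ⟨k, 0, 0⟩
  map_one' := rfl
  map_mul' k k' := by ext <;> simp

/-- The element `a`. -/
def ea (z : Subgroup.center K) : CP K z := ⟨1, 1, 0⟩

/-- The element `b`. -/
def eb (z : Subgroup.center K) : CP K z := ⟨1, 0, 1⟩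

theorem ea_pow (n : ℕ) : (ea z) ^ n = ⟨1, n, 0⟩ := by
  induction n with
  | zero => ext <;> simp
  | succ n ih => rw [pow_succ, ih]; ext <;> simp [ea]

theorem ea_zpow (n : ℤ) : (ea z) ^ n = ⟨1, n, 0⟩ := by
  rcases Int.eq_nat_or_neg n with ⟨m, rfl | rfl⟩
  · rw [zpow_natCast, ea_pow]
  · rw [zpow_neg, zpow_natCast, ea_pow]; ext <;> simp

theorem eb_pow (n : ℕ) : (eb z) ^ n = ⟨1, 0, n⟩ := by
  induction n with
  | zero => ext <;> simp
  | succ n ih => rw [pow_succ, ih]; ext <;> simp [eb]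

theorem eb_zpow (n : ℤ) : (eb z) ^ n = ⟨1, 0, n⟩ := by
  rcases Int.eq_nat_or_neg n with ⟨m, rfl | rfl⟩
  · rw [zpow_natCast, eb_pow]
  · rw [zpow_neg, zpow_natCast, eb_pow]; ext <;> simp

theorem normal_form (g : CP K z) : g = inK z g.k * (ea z) ^ g.n * (eb z) ^ g.l := by
  rw [ea_zpow, eb_zpow]; ext <;> simp [inK]

theorem commutator_le : commutator (CP K z) ≤ (inK z).range := by
  rw [commutator_def, Subgroup.commutator_le]
  intro g _ h _
  refine ⟨⁅g, h⁆.k, ?_⟩
  ext
  · rfl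
  · simp [inK, commutatorElement_def]
  · simp [inK, commutatorElement_def]

/-- The central subgroup to be factored out. -/
def relN (z w : Subgroup.center K) (p : ℕ) (hzp : (z : K) ^ p = 1) : Subgroup (CP K z) where
  carrier := {g | ∃ i j : ℤ, g.n = (p : ℤ) ^ 2 * i ∧ g.l = p * j ∧ g.k * (w : K) ^ i = 1}
  one_mem' := ⟨0, 0, by simp, by simp, by simp⟩
  mul_mem' := by
    rintro g h ⟨i, j, h1, h2, h3⟩ ⟨i', j', h4, h5, h6⟩
    refine ⟨i + i', j + j', by rw [mul_n, h1, h4]; ring, by rw [mul_l, h2, h5]; ring, ?_⟩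
    have hz0 : (z : K) ^ (g.l * h.n) = 1 := by
      rw [h2, mul_assoc, zpow_mul, zpow_natCast, hzp, one_zpow]
    rw [mul_k, hz0, mul_one, zpow_add, mul_assoc, ← mul_assoc h.k, ← zc w i h.k, mul_assoc,
      h6, mul_one, h3]
  inv_mem' := by
    rintro g ⟨i, j, h1, h2, h3⟩
    refine ⟨-i, -j, by rw [inv_n, h1]; ring, by rw [inv_l, h2]; ring, ?_⟩
    have hz0 : (z : K) ^ (g.l * g.n) = 1 := by
      rw [h2, mul_assoc, zpow_mul, zpow_natCast, hzp, one_zpow]
    rw [inv_k, hz0, mul_one, zpow_neg, ← mul_inv_rev, zc w i, h3, inv_one]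

theorem mem_relN {z w : Subgroup.center K} {p : ℕ} {hzp : (z : K) ^ p = 1} {g : CP K z} :
    g ∈ relN z w p hzp ↔
      ∃ i j : ℤ, g.n = (p : ℤ) ^ 2 * i ∧ g.l = p * j ∧ g.k * (w : K) ^ i = 1 := Iff.rfl

instance relN_normal (z w : Subgroup.center K) (p : ℕ) (hzp : (z : K) ^ p = 1) :
    (relN z w p hzp).Normal := by
  refine ⟨?_⟩
  rintro h ⟨i, j, h1, h2, h3⟩ g
  have hc : g * h = h * g := by
    ext
    · have hz0 : (z : K) ^ (g.l * h.n) = 1 := by
        rw [h1, show g.l * ((p : ℤ) ^ 2 * i) = p * (g.l * p * i) by ring, zpow_mul,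
          zpow_natCast, hzp, one_zpow]
      have hz1 : (z : K) ^ (h.l * g.n) = 1 := by
        rw [h2, mul_assoc, zpow_mul, zpow_natCast, hzp, one_zpow]
      rw [mul_k, mul_k, hz0, hz1, mul_one, mul_one, eq_inv_of_mul_eq_one_left h3, ← zpow_neg,
        zc w]
    · simp [add_comm]
    · simp [add_comm]
  rw [hc, mul_inv_cancel_right]
  exact ⟨i, j, h1, h2, h3⟩

end CP

/-- A finite perfect group with only inner automorphisms and non-trivial centre is the derived
subgroup of a finite group which is not integrable. -/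
theorem exists_not_integrable_of_center {K : Type} [Group K] [Finite K] (hK : commutator K = ⊤)
    (hinn : ∀ θ : MulAut K, ∃ k, ∀ x, θ x = k * x * k⁻¹) (hZ : Subgroup.center K ≠ ⊥) :
    ∃ (H : Type) (_ : Group H), Finite H ∧ Nonempty (commutator H ≃* K) ∧ ¬ IsIntegrable H := by
  -- the prime and the central elements
  have hcard : Nat.card (Subgroup.center K) ≠ 1 := by
    intro h
    exact hZ (Subgroup.eq_bot_of_card_eq _ h)
  obtain ⟨p, hp, hdvd⟩ := Nat.exists_prime_and_dvd hcard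
  have hfact : Fact p.Prime := ⟨hp⟩
  obtain ⟨z, hz⟩ := exists_prime_orderOf_dvd_card' (G := Subgroup.center K) p hdvd
  have hzp' : z ^ p = 1 := by rw [← hz]; exact pow_orderOf_eq_one z
  have hz1' : z ≠ 1 := by
    intro h; rw [h, orderOf_one] at hz; exact hp.one_lt.ne hz
  have hzp : (z : K) ^ p = 1 := by
    have := congrArg Subtype.val hzp'
    simpa using this
  have hz1 : (z : K) ≠ 1 := fun h => hz1' (Subtype.ext h)
  have hnsurj : ¬ Function.Surjective (fun v : Subgroup.center K => v ^ p) := by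
    intro h
    have h1 := Finite.injective_iff_surjective.2 h
    exact hz1' (h1 (by simp [hzp']))
  obtain ⟨w, hw⟩ : ∃ w : Subgroup.center K, ∀ v : Subgroup.center K, v ^ p ≠ w := by
    by_contra hcon
    push Not at hcon
    exact hnsurj hcon
  -- the group
  let N := CP.relN z w p hzp
  let H := CP K z ⧸ N
  let π : CP K z →* H := QuotientGroup.mk' N
  have hπ : Function.Surjective π := QuotientGroup.mk'_surjective N
  let ι : K →* H := π.comp (CP.inK z)
  have hker : ∀ g, π g = 1 ↔ g ∈ N := fun g => by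
    rw [← MonoidHom.mem_ker, QuotientGroup.ker_mk']
  have hι : Function.Injective ι := by
    rw [injective_iff_map_eq_one]
    intro k hk
    obtain ⟨i, j, h1, h2, h3⟩ := CP.mem_relN.1 ((hker (CP.inK z k)).1 hk)
    have hi : i = 0 := by
      have h4 : (0 : ℤ) = (p : ℤ) ^ 2 * i := h1
      have hp0 : (p : ℤ) ^ 2 ≠ 0 := pow_ne_zero 2 (by exact_mod_cast hp.ne_zero)
      rcases mul_eq_zero.1 h4.symm with h | h
      · exact absurd h hp0
      · exact h
    rw [hi, zpow_zero, mul_one] at h3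
    exact h3
  have hcomm : commutator H = ι.range := by
    apply le_antisymm
    · have h1 : commutator H = (commutator (CP K z)).map π := by
        rw [commutator_def, commutator_def, Subgroup.map_commutator,
          Subgroup.map_top_of_surjective π hπ]
      rw [h1]
      rintro _ ⟨g, hg, rfl⟩
      obtain ⟨k, rfl⟩ := CP.commutator_le hg
      exact ⟨k, rfl⟩
    · rintro _ ⟨k, rfl⟩
      exact map_mem_commutator ι (by rw [hK]; exact Subgroup.mem_top k)
  let a : H := π (CP.ea z)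
  let b : H := π (CP.eb z)
  have ha : ∀ k, a * ι k = ι k * a := by
    intro k
    change π (CP.ea z) * π (CP.inK z k) = π (CP.inK z k) * π (CP.ea z)
    rw [← map_mul, ← map_mul]
    congr 1
    ext <;> simp [CP.ea, CP.inK]
  have hb : ∀ k, b * ι k = ι k * b := by
    intro k
    change π (CP.eb z) * π (CP.inK z k) = π (CP.inK z k) * π (CP.eb z)
    rw [← map_mul, ← map_mul]
    congr 1
    ext <;> simp [CP.eb, CP.inK]
  have hba : b * a = ι z * a * b := by
    change π (CP.eb z) * π (CP.ea z) = π (CP.inK z z) * π (CP.ea z) * π (CP.eb z)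
    rw [← map_mul, ← map_mul, ← map_mul]
    congr 1
    ext <;> simp [CP.eb, CP.ea, CP.inK]
  have hap : a ^ (p ^ 2) = ι w := by
    change π (CP.ea z) ^ (p ^ 2) = π (CP.inK z w)
    rw [← map_pow, ← mul_inv_eq_one, ← map_inv, ← map_mul, hker, CP.ea_pow]
    refine CP.mem_relN.2 ⟨1, 0, ?_, ?_, ?_⟩
    · simp [CP.inK]
    · simp [CP.inK]
    · simp [CP.inK]
  have hbp : b ^ p = 1 := by
    change π (CP.eb z) ^ p = 1
    rw [← map_pow, hker, CP.eb_pow]
    refine CP.mem_relN.2 ⟨0, 1, ?_, ?_, ?_⟩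
    · simp
    · simp
    · simp
  have hgen : ∀ h : H, ∃ (k : K) (n l : ℤ), h = ι k * a ^ n * b ^ l := by
    intro h
    obtain ⟨g, rfl⟩ := hπ h
    refine ⟨g.k, g.n, g.l, ?_⟩
    conv_lhs => rw [CP.normal_form g]
    rw [map_mul, map_mul, map_zpow, map_zpow]
    rfl
  have hrel : ∀ (k : K) (n l : ℤ), ι k * a ^ n * b ^ l = 1 →
      (p : ℤ) ∣ l ∧ ∃ i : ℤ, n = (p : ℤ) ^ 2 * i ∧ k * (w : K) ^ i = 1 := by
    intro k n l h
    have h1 : π (⟨k, n, l⟩ : CP K z) = 1 := by
      rw [← h]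
      conv_lhs => rw [CP.normal_form (⟨k, n, l⟩ : CP K z)]
      rw [map_mul, map_mul, map_zpow, map_zpow]
      rfl
    obtain ⟨i, j, h2, h3, h4⟩ := CP.mem_relN.1 ((hker _).1 h1)
    exact ⟨⟨j, h3⟩, i, h2, h4⟩
  have hzc : ∀ k : K, (z : K) * k = k * z := fun k => (Subgroup.mem_center_iff.1 z.2 k).symm
  have hwc : ∀ k : K, (w : K) * k = k * w := fun k => (Subgroup.mem_center_iff.1 w.2 k).symm
  have hfin : Finite H := by
    apply Finite.of_surjective
      (fun t : K × Fin (p ^ 2) × Fin p => ι t.1 * a ^ (t.2.1 : ℕ) * b ^ (t.2.2 : ℕ))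
    intro h
    obtain ⟨k, n, l, rfl⟩ := hgen h
    have hp2 : (0 : ℤ) < (p : ℤ) ^ 2 := by have := hp.pos; positivity
    have hp1 : (0 : ℤ) < (p : ℤ) := by exact_mod_cast hp.pos
    have e1 : 0 ≤ n % ((p : ℤ) ^ 2) := Int.emod_nonneg _ hp2.ne'
    have e2 : n % ((p : ℤ) ^ 2) < (p : ℤ) ^ 2 := Int.emod_lt_of_pos _ hp2
    have e3 : 0 ≤ l % (p : ℤ) := Int.emod_nonneg _ hp1.ne'
    have e4 : l % (p : ℤ) < (p : ℤ) := Int.emod_lt_of_pos _ hp1
    refine ⟨(k * (w : K) ^ (n / ((p : ℤ) ^ 2)), ⟨(n % ((p : ℤ) ^ 2)).toNat, ?_⟩,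
      ⟨(l % (p : ℤ)).toNat, ?_⟩), ?_⟩
    · zify; rw [Int.toNat_of_nonneg e1]; exact e2
    · zify; rw [Int.toNat_of_nonneg e3]; exact e4
    · change ι (k * (w : K) ^ (n / ((p : ℤ) ^ 2))) * a ^ (n % ((p : ℤ) ^ 2)).toNat *
        b ^ (l % (p : ℤ)).toNat = ι k * a ^ n * b ^ l
      have f1 : a ^ n = ι ((w : K) ^ (n / ((p : ℤ) ^ 2))) * a ^ (n % ((p : ℤ) ^ 2)).toNat := by
        rw [map_zpow, ← hap, ← zpow_natCast a (n % ((p : ℤ) ^ 2)).toNat,
          Int.toNat_of_nonneg e1, ← zpow_natCast, ← zpow_mul, ← zpow_add]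
        congr 1
        push_cast
        exact (Int.mul_ediv_add_emod n ((p : ℤ) ^ 2)).symm
      have f2 : b ^ l = b ^ (l % (p : ℤ)).toNat := by
        rw [← zpow_natCast b (l % (p : ℤ)).toNat, Int.toNat_of_nonneg e3]
        conv_lhs => rw [← Int.mul_ediv_add_emod l (p : ℤ)]
        rw [zpow_add, zpow_mul, zpow_natCast, hbp, one_zpow, one_mul]
      rw [f1, f2, map_mul, mul_assoc (ι k)]
  refine ⟨H, inferInstance, hfin, ?_, ?_⟩
  · rw [hcomm]
    exact ⟨(MonoidHom.ofInjective hι).symm⟩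
  · refine not_integrable_of_data hp hι hcomm hinn ha hb hba hzc hwc hzp hz1 ?_ hap hbp hgen hrel
    intro v hv h
    refine hw ⟨v, Subgroup.mem_center_iff.2 fun k => (hv k).symm⟩ ?_
    apply Subtype.ext
    simpa using h

end Pool.Helper71.Integ
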