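import Pool.Agent.Lib.Helper71.Integ.Heis

/-!
# Products of a dihedral group with a group with large powers are not integrable
-/

set_option autoImplicit false

namespace Pool.Helper71.Integ

open scoped commutatorElement
open DihedralGroup

theorem r_two_mem (m : ℕ) : (r 2 : DihedralGroup m) ∈ commutator (DihedralGroup m) := by
  have h : (r 2 : DihedralGroup m) = ⁅(r 1 : DihedralGroup m), (sr 0 : DihedralGroup m)⁆ := by
    rw [commutatorElement_def]
    simp only [inv_r, inv_sr, r_mul_sr, sr_mul_r, sr_mul_sr]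
    congr 1
    ring
  rw [h, commutator_def]
  exact Subgroup.commutator_mem_commutator (Subgroup.mem_top _) (Subgroup.mem_top _)

theorem two_ne_zero_zmod {n : ℕ} (hn : 2 ≤ n) : (2 : ZMod (2 * n)) ≠ 0 := by
  intro h
  have h1 : ((2 : ℕ) : ZMod (2 * n)) = 0 := by exact_mod_cast h
  rw [ZMod.natCast_eq_zero_iff] at h1
  have := Nat.le_of_dvd (by norm_num) h1
  omega

/-- The rotation index of an element of a dihedral group (junk value on reflections). -/
def rot {m : ℕ} : DihedralGroup m → ZMod m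
  | r i => i
  | sr i => i

section

variable {n : ℕ} {W : Type} [Group W]

theorem exists_rot (hn : 2 ≤ n)
    (hW : ∀ (f : W →* DihedralGroup (2 * n)) (h : W), h * h ∈ commutator W → f h = 1)
    (θ : MulAut (DihedralGroup (2 * n) × W)) :
    (θ (r 1, 1)).1 = r (rot (θ (r 1, 1)).1) ∧
      (θ (r 1, 1)).2 * (θ (r 1, 1)).2 ∈ commutator W := by
  have hsq : θ (r 1, 1) * θ (r 1, 1) = θ (r 2, 1) := by
    rw [← map_mul]
    congr 1
    ext
    · simp [r_mul_r, one_add_one_eq_two]
    · simp
  have hcomm : ((r 2 : DihedralGroup (2 * n)), (1 : W)) ∈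
      commutator (DihedralGroup (2 * n) × W) := by
    have := map_mem_commutator (MonoidHom.inl (DihedralGroup (2 * n)) W) (r_two_mem (2 * n))
    simpa using this
  have h2 : (θ (r 1, 1)).2 * (θ (r 1, 1)).2 ∈ commutator W := by
    have h3 := map_mem_commutator (MonoidHom.snd (DihedralGroup (2 * n)) W)
      (map_mem_commutator θ.toMonoidHom hcomm)
    have h4 : (MonoidHom.snd (DihedralGroup (2 * n)) W) (θ.toMonoidHom (r 2, 1)) =
        (θ (r 1, 1)).2 * (θ (r 1, 1)).2 := by
      rw [← Prod.snd_mul, hsq]; rfl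
    rw [h4] at h3
    exact h3
  refine ⟨?_, h2⟩
  rcases hd : (θ (r 1, 1)).1 with i | i
  · rfl
  · exfalso
    set w := (θ (r 1, 1)).2 * (θ (r 1, 1)).2 with hw
    have h5 : θ (r 2, 1) = (1, w) := by
      rw [← hsq]
      ext
      · rw [Prod.fst_mul, hd, sr_mul_self]
      · rw [Prod.snd_mul]
    let f : W →* DihedralGroup (2 * n) :=
      (MonoidHom.fst (DihedralGroup (2 * n)) W).comp
        ((θ⁻¹).toMonoidHom.comp (MonoidHom.inr (DihedralGroup (2 * n)) W))
    have h6 : f w = 1 := hW f w (Subgroup.mul_mem _ h2 h2)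
    have h7 : θ⁻¹ (1, w) = (r 2, 1) := by
      rw [← h5, MulAut.inv_apply_self]
    have h8 : f w = r 2 := by
      have : f w = (θ⁻¹ (1, w)).1 := rfl
      rw [this, h7]
    rw [h6, one_def] at h8
    exact two_ne_zero_zmod hn (DihedralGroup.r.inj h8).symm

/-- The character of the automorphism group. -/
def chi (hn : 2 ≤ n)
    (hW : ∀ (f : W →* DihedralGroup (2 * n)) (h : W), h * h ∈ commutator W → f h = 1) :
    MulAut (DihedralGroup (2 * n) × W) →* ZMod (2 * n) where
  toFun θ := rot (θ (r 1, 1)).1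
  map_one' := by simp [rot]
  map_mul' θ θ' := by
    have : NeZero (2 * n) := ⟨by omega⟩
    obtain ⟨h1, h2⟩ := exists_rot hn hW θ
    obtain ⟨h3, h4⟩ := exists_rot hn hW θ'
    set u := rot (θ (r 1, 1)).1 with hu
    set u' := rot (θ' (r 1, 1)).1 with hu'
    have h5 : θ' (r 1, 1) = (r 1, 1) ^ u'.val * (1, (θ' (r 1, 1)).2) := by
      ext
      · rw [h3, Prod.fst_mul, Prod.pow_fst, r_one_pow, mul_one, ZMod.natCast_zmod_val]
      · simp
    let f : W →* DihedralGroup (2 * n) :=
      (MonoidHom.fst (DihedralGroup (2 * n)) W).comp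
        (θ.toMonoidHom.comp (MonoidHom.inr (DihedralGroup (2 * n)) W))
    have h6 : (θ (1, (θ' (r 1, 1)).2)).1 = 1 := hW f _ h4
    have h7 : ((θ * θ') (r 1, 1)).1 = r (u * u') := by
      rw [MulAut.mul_apply, h5, map_mul, map_pow, Prod.fst_mul, Prod.pow_fst, h6, mul_one, h1,
        r_pow, ZMod.natCast_zmod_val]
    rw [h7]; rfl

/-- A product of a dihedral group of order `4 n`, `n ≥ 2`, with a group `W` all of whose
homomorphisms to the dihedral group kill the elements with square in the derived subgroup, is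
not integrable. -/
theorem not_integrable_prod (hn : 2 ≤ n)
    (hW : ∀ (f : W →* DihedralGroup (2 * n)) (h : W), h * h ∈ commutator W → f h = 1) :
    ¬ IsIntegrable (DihedralGroup (2 * n) × W) := by
  intro hI
  have h1 := hom_comm_eq_one (chi hn hW) (hI.conj_mem (sr 0, 1))
  have h2 : chi hn hW (MulAut.conj (sr 0, 1)) = -1 := by
    change rot (MulAut.conj ((sr 0 : DihedralGroup (2 * n)), (1 : W)) (r 1, 1)).1 = -1
    rw [MulAut.conj_apply]
    simp only [Prod.mk_mul_mk, Prod.inv_mk, inv_sr, sr_mul_r, sr_mul_sr, mul_one]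
    simp [rot]
  rw [h2] at h1
  apply two_ne_zero_zmod hn
  linear_combination -h1

end

end Pool.Helper71.Integ
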