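import Pool.Agent.Lib.Helper71.Integ.Basic

/-!
# A Heisenberg type group with a multiplier, and finite abelian groups as derived subgroups
-/

set_option autoImplicit false

namespace Pool.Helper71.Integ

/-- The underlying set of the Heisenberg type group with multiplier `c`. -/
@[ext] structure Hei (R : Type) [CommRing R] (c : R) where
  /-- first coordinate -/
  x : R
  /-- second coordinate -/
  y : R
  /-- third coordinate -/
  z : R

open scoped commutatorElement

namespace Hei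

variable {R : Type} [CommRing R] {c : R}

instance : Mul (Hei R c) := ⟨fun g h => ⟨g.x + h.x, g.y + h.y, g.z + h.z + c * g.x * h.y⟩⟩
instance : One (Hei R c) := ⟨⟨0, 0, 0⟩⟩
instance : Inv (Hei R c) := ⟨fun g => ⟨-g.x, -g.y, -g.z + c * g.x * g.y⟩⟩

@[simp] theorem mul_x (g h : Hei R c) : (g * h).x = g.x + h.x := rfl
@[simp] theorem mul_y (g h : Hei R c) : (g * h).y = g.y + h.y := rfl
@[simp] theorem mul_z (g h : Hei R c) : (g * h).z = g.z + h.z + c * g.x * h.y := rfl
@[simp] theorem one_x : (1 : Hei R c).x = 0 := rfl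
@[simp] theorem one_y : (1 : Hei R c).y = 0 := rfl
@[simp] theorem one_z : (1 : Hei R c).z = 0 := rfl
@[simp] theorem inv_x (g : Hei R c) : (g⁻¹).x = -g.x := rfl
@[simp] theorem inv_y (g : Hei R c) : (g⁻¹).y = -g.y := rfl
@[simp] theorem inv_z (g : Hei R c) : (g⁻¹).z = -g.z + c * g.x * g.y := rfl

instance : Group (Hei R c) :=
  Group.ofLeftAxioms
    (fun g h k => by ext <;> simp <;> ring)
    (fun g => by ext <;> simp)
    (fun g => by ext <;> simp)

instance [Finite R] : Finite (Hei R c) := by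
  apply Finite.of_injective (fun g : Hei R c => (g.x, g.y, g.z))
  intro g h hgh
  simp only [Prod.mk.injEq] at hgh
  ext
  · exact hgh.1
  · exact hgh.2.1
  · exact hgh.2.2

theorem comm_eq (g h : Hei R c) : ⁅g, h⁆ = ⟨0, 0, c * (g.x * h.y - h.x * g.y)⟩ := by
  ext
  · simp [commutatorElement_def]
  · simp [commutatorElement_def]
  · simp [commutatorElement_def]; ring

/-- The subgroup of elements `(0, 0, c r)`. -/
def cen (R : Type) [CommRing R] (c : R) : Subgroup (Hei R c) where
  carrier := {g | g.x = 0 ∧ g.y = 0 ∧ ∃ r, g.z = c * r}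
  one_mem' := ⟨rfl, rfl, 0, by simp⟩
  mul_mem' := by
    rintro g h ⟨h1, h2, r, h3⟩ ⟨h4, h5, s, h6⟩
    refine ⟨by simp [h1, h4], by simp [h2, h5], r + s, ?_⟩
    simp [h1, h3, h6]; ring
  inv_mem' := by
    rintro g ⟨h1, h2, r, h3⟩
    refine ⟨by simp [h1], by simp [h2], -r, ?_⟩
    simp [h1, h3]

theorem mem_cen {g : Hei R c} : g ∈ cen R c ↔ g.x = 0 ∧ g.y = 0 ∧ ∃ r, g.z = c * r := Iff.rfl

theorem commutator_eq : commutator (Hei R c) = cen R c := by
  apply le_antisymm
  · rw [commutator_def, Subgroup.commutator_le]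
    intro g _ h _
    rw [comm_eq]
    exact ⟨rfl, rfl, _, rfl⟩
  · rintro g ⟨h1, h2, r, h3⟩
    have : g = ⁅(⟨r, 0, 0⟩ : Hei R c), (⟨0, 1, 0⟩ : Hei R c)⁆ := by
      rw [comm_eq]
      ext <;> simp [h1, h2, h3]
    rw [this, commutator_def]
    exact Subgroup.commutator_mem_commutator (Subgroup.mem_top _) (Subgroup.mem_top _)

theorem pow_xe (x : R) (k : ℕ) : (⟨x, 0, 0⟩ : Hei R c) ^ k = ⟨k * x, 0, 0⟩ := by
  induction k with
  | zero => ext <;> simp
  | succ k ih => rw [pow_succ, ih]; ext <;> simp; ring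

theorem pow_ye (x : R) (k : ℕ) : (⟨0, x, 0⟩ : Hei R c) ^ k = ⟨0, k * x, 0⟩ := by
  induction k with
  | zero => ext <;> simp
  | succ k ih => rw [pow_succ, ih]; ext <;> simp; ring

theorem pow_ze (x : R) (k : ℕ) : (⟨0, 0, x⟩ : Hei R c) ^ k = ⟨0, 0, k * x⟩ := by
  induction k with
  | zero => ext <;> simp
  | succ k ih => rw [pow_succ, ih]; ext <;> simp; ring

/-- If `2 r` divisible by `c` implies that `r` is divisible by `E`, then every homomorphism
to a group of exponent dividing `E` kills the elements whose square is in the derived subgroup. -/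
theorem hom_eq_one {D : Type} [Group D] {E : ℕ} (hD : ∀ d : D, d ^ E = 1)
    (hE : ∀ r t : R, 2 * r = c * t → ∃ s, r = E * s)
    (f : Hei R c →* D) (h : Hei R c) (hh : h * h ∈ commutator (Hei R c)) : f h = 1 := by
  rw [commutator_eq] at hh
  obtain ⟨h1, h2, r, h3⟩ := hh
  obtain ⟨x', hx⟩ := hE h.x 0 (by rw [mul_zero, two_mul]; exact h1)
  obtain ⟨y', hy⟩ := hE h.y 0 (by rw [mul_zero, two_mul]; exact h2)
  obtain ⟨z', hz⟩ := hE h.z (r - h.x * h.y) (by
    simp only [mul_z] at h3
    linear_combination h3)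
  have key : h = (⟨x', 0, 0⟩ : Hei R c) ^ E * (⟨0, y', 0⟩ : Hei R c) ^ E *
      (⟨0, 0, z' - c * E * x' * y'⟩ : Hei R c) ^ E := by
    rw [pow_xe, pow_ye, pow_ze]
    ext
    · simp [hx]
    · simp [hy]
    · simp [hz]; ring
  rw [key, map_mul, map_mul, map_pow, map_pow, map_pow, hD, hD, hD, one_mul, one_mul]

end Hei

/-- The injection `ZMod m → ZMod (N * m)` sending `1` to `N`. -/
def dil (N m : ℕ) : ZMod m →+ ZMod (N * m) :=
  ZMod.lift m ⟨(AddMonoidHom.mulLeft (N : ZMod (N * m))).comp (Int.castAddHom (ZMod (N * m))), by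
    simp only [AddMonoidHom.coe_comp, Function.comp_apply, Int.coe_castAddHom,
      AddMonoidHom.coe_mulLeft, Int.cast_natCast]
    have : ((N * m : ℕ) : ZMod (N * m)) = 0 := ZMod.natCast_self _
    rw [← this]; push_cast; rfl⟩

theorem dil_intCast (N m : ℕ) (k : ℤ) : dil N m (k : ZMod m) = (N : ZMod (N * m)) * k := by
  unfold dil
  rw [ZMod.lift_coe]
  simp

theorem dil_injective (N m : ℕ) (hN : 0 < N) : Function.Injective (dil N m) := by
  rw [injective_iff_map_eq_zero]
  intro a ha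
  obtain ⟨k, rfl⟩ := ZMod.intCast_surjective a
  rw [dil_intCast] at ha
  have h1 : (((N : ℤ) * k : ℤ) : ZMod (N * m)) = 0 := by push_cast; exact ha
  rw [ZMod.intCast_zmod_eq_zero_iff_dvd] at h1
  rw [ZMod.intCast_zmod_eq_zero_iff_dvd]
  push_cast at h1
  exact Int.dvd_of_mul_dvd_mul_left (by positivity) h1

theorem dil_surj (N m : ℕ) (a : ZMod (N * m)) : ∃ b, dil N m b = (N : ZMod (N * m)) * a := by
  obtain ⟨k, rfl⟩ := ZMod.intCast_surjective a
  exact ⟨(k : ZMod m), dil_intCast N m k⟩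

end Pool.Helper71.Integ
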