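import Pool.Agent.Lib.Helper71.Integ.Basic

/-!
# Finite groups in which every cyclic subgroup is the derived subgroup of a subgroup

Such a group is perfect and has odd order.
-/

set_option autoImplicit false

namespace Pool.Helper71.Integ

open scoped commutatorElement

section

variable {X : Type} [Group X] {B : Subgroup X} {x : X} {e : ℕ}

/-- The normalisation: every element of `B` acts on `x` as an odd power. -/
theorem conj_eq_odd (hB : ⁅B, B⁆ = Subgroup.zpowers x) (hx : orderOf x = 2 ^ (e + 1))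
    {s : X} (hs : s ∈ B) : ∃ k : ℤ, s * x * s⁻¹ = x ^ (2 * k + 1) := by
  have hle : ⁅B, B⁆ ≤ B := Subgroup.commutator_le_self B
  have hxm : x ∈ ⁅B, B⁆ := by rw [hB]; exact Subgroup.mem_zpowers x
  have h1 : ⁅s, x⁆ ∈ Subgroup.zpowers x := by
    rw [← hB]; exact Subgroup.commutator_mem_commutator hs (hle hxm)
  obtain ⟨j, hj⟩ := Subgroup.mem_zpowers_iff.1 h1
  have h2 : s * x * s⁻¹ = x ^ (j + 1) := by
    rw [zpow_add_one, hj, commutatorElement_def]; group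
  rcases Int.even_or_odd j with ⟨l, hl⟩ | ⟨l, hl⟩
  · exact ⟨l, by rw [h2, hl]; congr 1; ring⟩
  · exfalso
    have h3 : (s * x * s⁻¹) ^ (2 ^ e) = 1 := by
      rw [h2, hl, ← zpow_natCast, ← zpow_mul]
      have : ((2 * l + 1 + 1) * ((2 ^ e : ℕ) : ℤ)) = ((2 ^ (e + 1) : ℕ) : ℤ) * (l + 1) := by
        push_cast; ring
      rw [this, zpow_mul, zpow_natCast, ← hx, pow_orderOf_eq_one, one_zpow]
    rw [conj_pow] at h3
    have h4 : x ^ (2 ^ e) = 1 := by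
      have := congrArg (fun y => s⁻¹ * y * s) h3
      simpa [mul_assoc] using this
    have h5 := orderOf_dvd_of_pow_eq_one h4
    rw [hx] at h5
    have := Nat.le_of_dvd (by positivity) h5
    have h6 : 2 ^ e < 2 ^ (e + 1) := Nat.pow_lt_pow_right (by norm_num) (Nat.lt_succ_self e)
    omega

theorem conj_zpow_of {s : X} {k : ℤ} (h : s * x * s⁻¹ = x ^ (2 * k + 1)) (t : ℤ) :
    s * x ^ t * s⁻¹ = x ^ (t + 2 * (k * t)) := by
  rw [← conj_zpow, h, ← zpow_mul]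
  congr 1; ring

/-- The parity of the exponent of a commutator is additive. -/
theorem comm_mul_parity (hB : ⁅B, B⁆ = Subgroup.zpowers x) (hx : orderOf x = 2 ^ (e + 1))
    {s s' h : X} (hs : s ∈ B) {t t' : ℤ} (h1 : ⁅s, h⁆ = x ^ t) (h2 : ⁅s', h⁆ = x ^ t') :
    ∃ u : ℤ, ⁅s * s', h⁆ = x ^ (t + t' + 2 * u) := by
  obtain ⟨k, hk⟩ := conj_eq_odd hB hx hs
  refine ⟨k * t', ?_⟩
  have : ⁅s * s', h⁆ = s * ⁅s', h⁆ * s⁻¹ * ⁅s, h⁆ := by
    simp only [commutatorElement_def]; group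
  rw [this, h1, h2, conj_zpow_of hk, ← zpow_add]
  congr 1; ring

theorem comm_pow_parity (hB : ⁅B, B⁆ = Subgroup.zpowers x) (hx : orderOf x = 2 ^ (e + 1))
    {s h : X} (hs : s ∈ B) {t : ℤ} (h1 : ⁅s, h⁆ = x ^ t) (m : ℕ) :
    ∃ u : ℤ, ⁅s ^ m, h⁆ = x ^ (m * t + 2 * u) := by
  induction m with
  | zero => exact ⟨0, by simp⟩
  | succ m ih =>
    obtain ⟨u, hu⟩ := ih
    obtain ⟨v, hv⟩ := comm_mul_parity hB hx (Subgroup.pow_mem _ hs m) hu h1
    refine ⟨u + v, ?_⟩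
    rw [pow_succ, hv]
    congr 1; push_cast; ring

/-- Squaring the first entry of a commutator. -/
theorem comm_sq (hB : ⁅B, B⁆ = Subgroup.zpowers x) (hx : orderOf x = 2 ^ (e + 1))
    {s h : X} (hs : s ∈ B) {i : ℕ} (h1 : ∃ t : ℤ, ⁅s, h⁆ = x ^ (2 ^ i * t)) :
    ∃ t : ℤ, ⁅s * s, h⁆ = x ^ (2 ^ (i + 1) * t) := by
  obtain ⟨t, ht⟩ := h1
  obtain ⟨k, hk⟩ := conj_eq_odd hB hx hs
  refine ⟨t + k * t, ?_⟩
  have : ⁅s * s, h⁆ = s * ⁅s, h⁆ * s⁻¹ * ⁅s, h⁆ := by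
    simp only [commutatorElement_def]; group
  rw [this, ht, conj_zpow_of hk, ← zpow_add]
  congr 1; ring

theorem comm_symm {s h : X} {i : ℕ} (h1 : ∃ t : ℤ, ⁅s, h⁆ = x ^ (2 ^ i * t)) :
    ∃ t : ℤ, ⁅h, s⁆ = x ^ (2 ^ i * t) := by
  obtain ⟨t, ht⟩ := h1
  refine ⟨-t, ?_⟩
  rw [← commutatorElement_inv, ht, ← zpow_neg]
  congr 1; ring

theorem comm_pow_two_pow (hB : ⁅B, B⁆ = Subgroup.zpowers x) (hx : orderOf x = 2 ^ (e + 1))
    {s h : X} (hs : s ∈ B) {i : ℕ} (h1 : ∃ t : ℤ, ⁅s, h⁆ = x ^ (2 ^ i * t)) (j : ℕ) :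
    ∃ t : ℤ, ⁅s ^ (2 ^ j), h⁆ = x ^ (2 ^ (i + j) * t) := by
  induction j with
  | zero => simpa using h1
  | succ j ih =>
    have := comm_sq hB hx (Subgroup.pow_mem _ hs (2 ^ j)) ih
    rwa [← pow_add, ← two_mul, ← pow_succ', add_assoc] at this

/-- Commutators with powers of `x`. -/
theorem comm_zpow (hB : ⁅B, B⁆ = Subgroup.zpowers x) (hx : orderOf x = 2 ^ (e + 1))
    {s : X} (hs : s ∈ B) (i : ℕ) (t : ℤ) :
    ∃ t' : ℤ, ⁅s, x ^ (2 ^ i * t)⁆ = x ^ (2 ^ (i + 1) * t') := by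
  obtain ⟨k, hk⟩ := conj_eq_odd hB hx hs
  refine ⟨k * t, ?_⟩
  rw [commutatorElement_def, conj_zpow_of hk, ← zpow_neg, ← zpow_add]
  congr 1; ring

/-- The doubling formula. -/
theorem doubling (hB : ⁅B, B⁆ = Subgroup.zpowers x) (hx : orderOf x = 2 ^ (e + 1))
    {a b : X} (ha : a ∈ B) (hb : b ∈ B) {t₀ : ℤ} (hab : ⁅a, b⁆ = x ^ (2 * t₀ + 1)) (j : ℕ) :
    ∃ t : ℤ, (a * b) ^ (2 ^ (j + 1)) =
      a ^ (2 ^ (j + 1)) * b ^ (2 ^ (j + 1)) * x ^ (2 ^ j * (2 * t + 1)) := by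
  have hxB : ∀ t : ℤ, x ^ t ∈ B := fun t => by
    apply Subgroup.commutator_le_self B
    rw [hB]; exact Subgroup.zpow_mem _ (Subgroup.mem_zpowers x) t
  induction j with
  | zero =>
    obtain ⟨k, hk⟩ := conj_eq_odd hB hx (Subgroup.inv_mem _ ha)
    obtain ⟨l, hl⟩ := conj_eq_odd hB hx (Subgroup.inv_mem _ (Subgroup.mul_mem _ hb hb))
    have h1 : (a * b) ^ (2 ^ (0 + 1)) = a ^ (2 ^ (0 + 1)) * b ^ (2 ^ (0 + 1)) *
        ((b * b)⁻¹ * (a⁻¹ * (⁅a, b⁆⁻¹) * (a⁻¹)⁻¹) * ((b * b)⁻¹)⁻¹) := by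
      simp only [commutatorElement_def, zero_add, pow_one, pow_two]; group
    rw [h1, hab, ← zpow_neg, conj_zpow_of hk, conj_zpow_of hl]
    refine ⟨-t₀ - 1 + k * -(2 * t₀ + 1) +
      l * (-(2 * t₀ + 1) + 2 * (k * -(2 * t₀ + 1))), ?_⟩
    congr 2
    ring
  | succ j ih =>
    obtain ⟨t, ht⟩ := ih
    set U := a ^ (2 ^ (j + 1)) with hU
    set V := b ^ (2 ^ (j + 1)) with hV
    have hUB : U ∈ B := Subgroup.pow_mem _ ha _
    have hVB : V ∈ B := Subgroup.pow_mem _ hb _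
    set y := x ^ (2 ^ j * (2 * t + 1)) with hy
    have hUi : U⁻¹ = (a⁻¹) ^ (2 ^ (j + 1)) := by rw [hU, inv_pow]
    have hVi : V⁻¹ = (b⁻¹) ^ (2 ^ (j + 1)) := by rw [hV, inv_pow]
    have ha' : a⁻¹ ∈ B := Subgroup.inv_mem _ ha
    have hb' : b⁻¹ ∈ B := Subgroup.inv_mem _ hb
    have c1 : ∃ s : ℤ, ⁅V⁻¹, U⁻¹⁆ = x ^ (2 ^ (j + 2) * s) := by
      have h0 : ∃ s : ℤ, ⁅a⁻¹, b⁻¹⁆ = x ^ (2 ^ 0 * s) := by
        have hm : ⁅a⁻¹, b⁻¹⁆ ∈ Subgroup.zpowers x := by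
          rw [← hB]; exact Subgroup.commutator_mem_commutator ha' hb'
        obtain ⟨s, hs⟩ := Subgroup.mem_zpowers_iff.1 hm
        exact ⟨s, by rw [← hs]; congr 1; ring⟩
      have h1 := comm_pow_two_pow hB hx ha' h0 (j + 1)
      have h2 := comm_pow_two_pow hB hx hb' (comm_symm h1) (j + 1)
      rw [← hUi, ← hVi] at h2
      obtain ⟨s, hs⟩ := h2
      refine ⟨2 ^ j * s, ?_⟩
      rw [hs]
      congr 1
      rw [show 0 + (j + 1) + (j + 1) = (j + 2) + j by ring, pow_add]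
      ring
    have c2 : ∃ s : ℤ, ⁅U⁻¹, y⁆ = x ^ (2 ^ (j + 2) * s) := by
      have h1 : ∃ s : ℤ, ⁅a⁻¹, y⁆ = x ^ (2 ^ (j + 1) * s) := comm_zpow hB hx ha' j (2 * t + 1)
      obtain ⟨s', hs'⟩ := comm_pow_two_pow hB hx ha' h1 (j + 1)
      rw [← hUi] at hs'
      refine ⟨2 ^ j * s', ?_⟩
      rw [hs']
      congr 1
      rw [show j + 1 + (j + 1) = (j + 2) + j by ring, pow_add]
      ring
    have c3 : ∃ s : ℤ, ⁅V⁻¹, y⁆ = x ^ (2 ^ (j + 2) * s) := by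
      have h1 : ∃ s : ℤ, ⁅b⁻¹, y⁆ = x ^ (2 ^ (j + 1) * s) := comm_zpow hB hx hb' j (2 * t + 1)
      obtain ⟨s', hs'⟩ := comm_pow_two_pow hB hx hb' h1 (j + 1)
      rw [← hVi] at hs'
      refine ⟨2 ^ j * s', ?_⟩
      rw [hs']
      congr 1
      rw [show j + 1 + (j + 1) = (j + 2) + j by ring, pow_add]
      ring
    obtain ⟨s1, hs1⟩ := c1
    obtain ⟨s2, hs2⟩ := c2
    obtain ⟨s3, hs3⟩ := c3
    obtain ⟨l, hl⟩ := conj_eq_odd hB hx (Subgroup.inv_mem _ hVB)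
    have key : (U * V * y) * (U * V * y) = U * U * (V * V) *
        ((V⁻¹ * ⁅V⁻¹, U⁻¹⁆ * (V⁻¹)⁻¹) * (V⁻¹ * ⁅U⁻¹, y⁆ * (V⁻¹)⁻¹) * ⁅V⁻¹, y⁆ * (y * y)) := by
      simp only [commutatorElement_def]; group
    have hUU : U * U = a ^ (2 ^ (j + 1 + 1)) := by
      rw [hU, ← pow_add, ← two_mul, ← pow_succ']
    have hVV : V * V = b ^ (2 ^ (j + 1 + 1)) := by
      rw [hV, ← pow_add, ← two_mul, ← pow_succ']
    have hsq : (a * b) ^ (2 ^ (j + 1 + 1)) = (U * V * y) * (U * V * y) := by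
      rw [← ht, ← pow_add, ← two_mul, ← pow_succ']
    rw [hsq, key, hs1, hs2, hs3, conj_zpow_of hl, conj_zpow_of hl, hy, ← zpow_add, ← zpow_add,
      ← zpow_add, ← zpow_add, hUU, hVV]
    refine ⟨t + (s1 + 2 * l * s1) + (s2 + 2 * l * s2) + s3, ?_⟩
    congr 2
    rw [pow_succ (2 : ℤ) j, pow_succ (2 : ℤ) (j + 1), pow_succ (2 : ℤ) j]
    ring

end

/-- A finite group of even order contains a cyclic subgroup which is not the derived subgroup of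
any subgroup. -/
theorem odd_of_forall {X : Type} [Group X] [Finite X]
    (h : ∀ x : X, ∃ B : Subgroup X, ⁅B, B⁆ = Subgroup.zpowers x) : Odd (Nat.card X) := by
  classical
  by_contra hodd
  rw [Nat.not_odd_iff_even] at hodd
  have hP1 : ∃ x : X, orderOf x = 2 ^ (0 + 1) := by
    have : Fact (Nat.Prime 2) := ⟨Nat.prime_two⟩
    obtain ⟨x, hx⟩ := exists_prime_orderOf_dvd_card' (G := X) 2 hodd.two_dvd
    exact ⟨x, by simpa using hx⟩
  let P : ℕ → Prop := fun e => ∃ x : X, orderOf x = 2 ^ (e + 1)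
  have hbd : ∀ e, P e → e ≤ Nat.card X := by
    rintro e ⟨x, hx⟩
    have h1 : orderOf x ≤ Nat.card X := orderOf_le_card
    have h2 : e + 1 < 2 ^ (e + 1) := Nat.lt_two_pow_self
    omega
  let e := Nat.findGreatest P (Nat.card X)
  have he : P e := Nat.findGreatest_spec (P := P) (Nat.zero_le _) hP1
  have hmax : ∀ y : X, y ^ (2 ^ (e + 1 + 1)) = 1 → y ^ (2 ^ (e + 1)) = 1 := by
    intro y hy
    by_contra hne
    have : Fact (Nat.Prime 2) := ⟨Nat.prime_two⟩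
    have h1 : orderOf y = 2 ^ (e + 1 + 1) := orderOf_eq_prime_pow hne hy
    have h2 : P (e + 1) := ⟨y, h1⟩
    have h3 : e + 1 ≤ e := Nat.le_findGreatest (hbd _ h2) h2
    omega
  have hmax' : ∀ (k : ℕ) (y : X), y ^ (2 ^ k) = 1 → y ^ (2 ^ (e + 1)) = 1 := by
    intro k
    induction k with
    | zero => intro y hy; simp at hy; simp [hy]
    | succ k ih =>
      intro y hy
      by_cases hk : k + 1 ≤ e + 1
      · obtain ⟨m, hm⟩ := Nat.exists_eq_add_of_le hk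
        rw [hm, pow_add, pow_mul, hy, one_pow]
      · have h1 : (y ^ (2 ^ (k - (e + 1)))) ^ (2 ^ (e + 1 + 1)) = 1 := by
          rw [← pow_mul, ← pow_add]
          have : k - (e + 1) + (e + 1 + 1) = k + 1 := by omega
          rw [this, hy]
        have h2 := hmax _ h1
        rw [← pow_mul, ← pow_add] at h2
        have : k - (e + 1) + (e + 1) = k := by omega
        rw [this] at h2
        exact ih y h2
  obtain ⟨x, hx⟩ := he
  obtain ⟨B, hB⟩ := h x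
  -- a commutator which is an odd power
  have hodd1 : ∃ g ∈ B, ∃ h ∈ B, ∃ t : ℤ, ⁅g, h⁆ = x ^ (2 * t + 1) := by
    by_contra hcon
    have h1 : ⁅B, B⁆ ≤ Subgroup.zpowers (x ^ 2) := by
      rw [Subgroup.commutator_le]
      intro g hg k hk
      have hm : ⁅g, k⁆ ∈ Subgroup.zpowers x := by
        rw [← hB]; exact Subgroup.commutator_mem_commutator hg hk
      obtain ⟨s, hs⟩ := Subgroup.mem_zpowers_iff.1 hm
      rcases Int.even_or_odd s with ⟨l, hl⟩ | ⟨l, hl⟩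
      · rw [Subgroup.mem_zpowers_iff]
        refine ⟨l, ?_⟩
        rw [← hs, hl, ← zpow_natCast, ← zpow_mul]
        congr 1; push_cast; ring
      · exact absurd ⟨g, hg, k, hk, l, by rw [← hs, hl]⟩ hcon
    rw [hB] at h1
    obtain ⟨s, hs⟩ := Subgroup.mem_zpowers_iff.1 (h1 (Subgroup.mem_zpowers x))
    have h2 : x ^ (2 * s - 1) = 1 := by
      rw [zpow_sub_one, zpow_mul]
      have : x ^ (2 : ℤ) = x ^ 2 := by norm_cast
      rw [this, hs, mul_inv_cancel]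
    have h3 := (orderOf_dvd_iff_zpow_eq_one.2 h2)
    rw [hx] at h3
    have h4 : (2 : ℤ) ∣ 2 * s - 1 := by
      refine dvd_trans ?_ h3
      push_cast
      exact dvd_pow_self 2 (Nat.succ_ne_zero e)
    omega
  obtain ⟨g, hg, k, hk, t, ht⟩ := hodd1
  -- pass to elements of two power order
  obtain ⟨p1, q1, hq1, hg1⟩ := Nat.exists_eq_two_pow_mul_odd (orderOf_pos g).ne'
  obtain ⟨p2, q2, hq2, hk1⟩ := Nat.exists_eq_two_pow_mul_odd (orderOf_pos k).ne'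
  have ha : (g ^ q1) ^ (2 ^ (e + 1)) = 1 := by
    apply hmax' p1
    rw [← pow_mul, mul_comm, ← hg1, pow_orderOf_eq_one]
  have hb : (k ^ q2) ^ (2 ^ (e + 1)) = 1 := by
    apply hmax' p2
    rw [← pow_mul, mul_comm, ← hk1, pow_orderOf_eq_one]
  have haB : g ^ q1 ∈ B := Subgroup.pow_mem _ hg _
  have hbB : k ^ q2 ∈ B := Subgroup.pow_mem _ hk _
  have hab : ∃ t₀ : ℤ, ⁅g ^ q1, k ^ q2⁆ = x ^ (2 * t₀ + 1) := by
    obtain ⟨u, hu⟩ := comm_pow_parity hB hx hg ht q1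
    have h1 : ⁅k, g ^ q1⁆ = x ^ (-(q1 * (2 * t + 1) + 2 * u)) := by
      rw [← commutatorElement_inv, hu, ← zpow_neg]
    obtain ⟨v, hv⟩ := comm_pow_parity hB hx hk h1 q2
    obtain ⟨r1, hr1⟩ := hq1
    obtain ⟨r2, hr2⟩ := hq2
    have h2 : ⁅g ^ q1, k ^ q2⁆ = x ^ (-(q2 * -(q1 * (2 * t + 1) + 2 * u) + 2 * v)) := by
      rw [← commutatorElement_inv, hv, ← zpow_neg]
    rw [h2, hr1, hr2]
    refine ⟨(2 * r2 + 1) * (2 * r1 + 1) * t + (2 * r2 + 1) * u - v + (2 * r1 * r2 + r1 + r2), ?_⟩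
    congr 1
    push_cast
    ring
  obtain ⟨t₀, ht₀⟩ := hab
  obtain ⟨t', ht'⟩ := doubling hB hx haB hbB ht₀ e
  rw [ha, hb, one_mul, one_mul] at ht'
  have h1 : (g ^ q1 * k ^ q2) ^ (2 ^ (e + 1 + 1)) = 1 := by
    rw [pow_succ 2 (e + 1), pow_mul, ht', ← zpow_natCast, ← zpow_mul]
    have : (2 ^ e * (2 * t' + 1) * ((2 : ℕ) : ℤ)) = ((2 ^ (e + 1) : ℕ) : ℤ) * (2 * t' + 1) := by
      push_cast; ring
    rw [this, zpow_mul, zpow_natCast, ← hx, pow_orderOf_eq_one, one_zpow]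
  have h2 := hmax _ h1
  rw [ht'] at h2
  have h3 := (orderOf_dvd_iff_zpow_eq_one.2 h2)
  rw [hx] at h3
  push_cast at h3
  rw [pow_succ] at h3
  have h4 : (2 : ℤ) ∣ 2 * t' + 1 := Int.dvd_of_mul_dvd_mul_left (by positivity) h3
  omega

/-- A group in which every cyclic subgroup is the derived subgroup of a subgroup is perfect. -/
theorem perfect_of_forall {X : Type} [Group X]
    (h : ∀ x : X, ∃ B : Subgroup X, ⁅B, B⁆ = Subgroup.zpowers x) : commutator X = ⊤ := by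
  rw [eq_top_iff]
  intro x _
  obtain ⟨B, hB⟩ := h x
  have h1 : x ∈ ⁅B, B⁆ := by rw [hB]; exact Subgroup.mem_zpowers x
  exact Subgroup.commutator_mono le_top le_top h1

end Pool.Helper71.Integ
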